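import Pool.Agent.Helper18_PP.StmtsDZ

/-!
# Squad PP, module CMP: good complements
-/

open scoped BigOperators

set_option linter.unusedSectionVars false

noncomputable section

namespace Pool.Agent.PP.H6

open Pool.Agent.Helper51_AWC Pool.Agent.Helper79_WRA Pool.Agent.PP

variable {F G : Type} [Field F] [Group G]

open Classical in
/-- the class sum of a conjugacy class -/
def cs (F : Type) [Field F] {N : Type} [Group N] (K : ConjClasses N) : N → F :=
  fun y => if ConjClasses.mk y = K then 1 else 0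

theorem cs_congr {N N' : Type} [Group N] [Group N'] {K : ConjClasses N} {K' : ConjClasses N'}
    {y : N} {y' : N'} (h : ConjClasses.mk y = K ↔ ConjClasses.mk y' = K') :
    cs F K y = cs F K' y' := by
  unfold cs
  by_cases h1 : ConjClasses.mk y = K
  · rw [if_pos h1, if_pos (h.1 h1)]
  · rw [if_neg h1, if_neg (fun h2 => h1 (h.2 h2))]

theorem cs_isCl {N : Type} [Group N] (K : ConjClasses N) : IsCl (cs F K) := by
  intro x y
  have h : ConjClasses.mk (y * x * y⁻¹) = ConjClasses.mk x :=
    ConjClasses.mk_eq_mk_iff_isConj.2 (isConj_iff.2 ⟨y, rfl⟩).symm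
  unfold cs
  rw [h]

theorem mulF_fin {N : Type} [Group N] [Fintype N] (a b : N → F) (x : N) :
    mulF a b x = ∑ t, a t * b (t⁻¹ * x) := by
  rw [mulF, finsum_eq_sum_of_fintype]

/-- the value of a class function at the representative -/
theorem cl_out {N : Type} [Group N] {b : N → F} (hb : IsCl b) (y : N) :
    b (ConjClasses.mk y).out = b y := by
  have h : IsConj (ConjClasses.mk y).out y := by
    rw [← ConjClasses.mk_eq_mk_iff_isConj]
    exact Quotient.out_eq _
  obtain ⟨c, hc⟩ := isConj_iff.1 h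
  have h1 := hb (ConjClasses.mk y).out c
  rw [hc] at h1
  exact h1.symm

/-- the decomposition of `1` as a sum of central characters at class sums -/
theorem one_eq_sum {N : Type} [Group N] [Fintype N] [Fintype (ConjClasses N)] {b : N → F}
    (hb : IsIdem b) (w : ConjClasses N → F) (hw : ∀ K, mulF (cs F K) b = w K • b)
    {x : N} (hx : b x ≠ 0) : ∑ K : ConjClasses N, b K.out * w K = 1 := by
  have h1 : b x = ∑ K : ConjClasses N, b K.out * (w K * b x) := by
    conv_lhs => rw [← hb.2]
    rw [mulF_fin]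
    have h2 : ∀ t : N, b t * b (t⁻¹ * x) =
        ∑ K : ConjClasses N, b K.out * (cs F K t * b (t⁻¹ * x)) := by
      intro t
      classical
      rw [Finset.sum_eq_single (ConjClasses.mk t)]
      · rw [cl_out hb.1]
        unfold cs
        rw [if_pos rfl, one_mul]
      · intro K _ hK
        unfold cs
        rw [if_neg (Ne.symm hK), zero_mul, mul_zero]
      · intro h
        exact absurd (Finset.mem_univ _) h
    rw [Finset.sum_congr rfl fun t _ => h2 t, Finset.sum_comm]
    refine Finset.sum_congr rfl fun K _ => ?_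
    rw [← Finset.mul_sum, ← mulF_fin, hw K, Pi.smul_apply, smul_eq_mul]
  have h3 : (∑ K : ConjClasses N, b K.out * w K) * b x = 1 * b x := by
    rw [Finset.sum_mul, one_mul, h1]
    refine Finset.sum_congr rfl fun K _ => ?_
    rw [mul_assoc]
    congr 1
    rw [← h1]
  exact mul_right_cancel₀ hx h3

/-- conjugation by elements of `G` on the conjugacy classes of `N` -/
@[reducible] def ccAct {N : Subgroup G} [N.Normal] (S : Subgroup G) :
    MulAction S (ConjClasses N) where
  smul s K := ConjClasses.map (MulAut.conjNormal (s : G) : MulAut N).toMonoidHom K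
  one_smul K := by
    induction K using Quotient.inductionOn with
    | h x =>
      change ConjClasses.mk (MulAut.conjNormal ((1 : S) : G) x) = ConjClasses.mk x
      rw [OneMemClass.coe_one, map_one]
      rfl
  mul_smul s t K := by
    induction K using Quotient.inductionOn with
    | h x =>
      change ConjClasses.mk (MulAut.conjNormal ((s * t : S) : G) x) =
        ConjClasses.mk (MulAut.conjNormal (s : G) (MulAut.conjNormal (t : G) x))
      rw [Subgroup.coe_mul, map_mul]
      rfl

/-- the order of the centraliser -/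
theorem card_cent (N : Subgroup G) (x : N) :
    Nat.card (N ⊓ Subgroup.centralizer ({(x : G)} : Set G) : Subgroup G) =
      Nat.card (Subgroup.centralizer ({x} : Set N)) := by
  have h : (Subgroup.centralizer ({x} : Set N)).map N.subtype =
      N ⊓ Subgroup.centralizer ({(x : G)} : Set G) := by
    ext y
    rw [Subgroup.mem_inf, Subgroup.mem_centralizer_singleton_iff]
    constructor
    · rintro ⟨z, hz, rfl⟩
      have hz' := Subgroup.mem_centralizer_singleton_iff.1 hz
      exact ⟨z.2, congrArg Subtype.val hz'⟩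
    · rintro ⟨h1, h2⟩
      refine ⟨⟨y, h1⟩, ?_, rfl⟩
      change (⟨y, h1⟩ : N) ∈ Subgroup.centralizer ({x} : Set N)
      rw [Subgroup.mem_centralizer_singleton_iff]
      exact Subtype.ext h2
  rw [← h, Subgroup.card_map_of_injective N.subtype_injective]

variable [Finite G]

/-- an `ℓ`-subgroup supplementing `N` in `T` -/
theorem exists_suppl {ℓ : ℕ} [Fact ℓ.Prime] {N T : Subgroup G} [N.Normal] (hNT : N ≤ T) {k : ℕ}
    (hk : N.relIndex T = ℓ ^ k) : ∃ S : Subgroup G, IsPGroup ℓ S ∧ S ⊔ N = T := by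
  obtain ⟨P₀⟩ : Nonempty (Sylow ℓ T) := inferInstance
  refine ⟨(P₀ : Subgroup T).map T.subtype, P₀.isPGroup'.map _, ?_⟩
  have h1 : ((P₀ : Subgroup T) ⊔ N.subgroupOf T).index = 1 := by
    have h2 := Subgroup.index_dvd_of_le (le_sup_left : (P₀ : Subgroup T) ≤ (P₀ : Subgroup T) ⊔ N.subgroupOf T)
    have h3 := Subgroup.index_dvd_of_le (le_sup_right : N.subgroupOf T ≤ (P₀ : Subgroup T) ⊔ N.subgroupOf T)
    have h4 : (N.subgroupOf T).index = ℓ ^ k := hk
    rw [h4] at h3
    obtain ⟨j, _, hj⟩ := (Nat.dvd_prime_pow (Fact.out : ℓ.Prime)).1 h3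
    rcases Nat.eq_zero_or_pos j with rfl | hj0
    · rw [hj, pow_zero]
    · exfalso
      rw [hj] at h2
      exact P₀.not_dvd_index (dvd_trans (dvd_pow_self ℓ hj0.ne') h2)
  rw [Subgroup.index_eq_one] at h1
  have h5 : ((P₀ : Subgroup T) ⊔ N.subgroupOf T).map T.subtype = T := by
    rw [h1, ← MonoidHom.range_eq_map, Subgroup.range_subtype]
  rw [Subgroup.map_sup, Subgroup.map_subgroupOf_eq_of_le hNT] at h5
  exact h5

/-- the key point: a class of `N` fixed by `T` with nonzero central character -/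
theorem exists_class {ℓ : ℕ} (hℓ : ℓ.Prime) (hF : CharP F ℓ) (horb : OrbStmt)
    {N T : Subgroup G} [N.Normal] {b : G → F} (hb : IsCl b)
    (hbi : IsIdem (fun x : N => b x)) (hne : ∃ x : N, b x ≠ 0)
    (hmat : ∀ z : N → F, IsCl z → ∃ w : F, mulF z (fun x : N => b x) = w • (fun x : N => b x))
    (hNT : N ≤ T) {k : ℕ} (hk : N.relIndex T = ℓ ^ k) :
    ∃ (x : N) (w : F), b x ≠ 0 ∧ w ≠ 0 ∧
      mulF (cs F (ConjClasses.mk x)) (fun x : N => b x) = w • (fun x : N => b x) ∧
      ∀ t ∈ T, ∃ m ∈ N, m * t ∈ Subgroup.centralizer ({(x : G)} : Set G) := by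
  have : Fact ℓ.Prime := ⟨hℓ⟩
  classical
  have := Fintype.ofFinite N
  have := Fintype.ofFinite (ConjClasses N)
  obtain ⟨S, hS, hST⟩ := exists_suppl hNT hk
  choose w hw using fun K : ConjClasses N => hmat (cs F K) (cs_isCl K)
  obtain ⟨x₀, hx₀⟩ := hne
  have hsum := one_eq_sum hbi w hw (x := x₀) hx₀
  let act := ccAct (N := N) S
  have hsm : ∀ (s : S) (y : N), s • (ConjClasses.mk y) =
      ConjClasses.mk (MulAut.conjNormal (s : G) y) := fun s y => rfl
  have hout : ∀ (s : S) (K : ConjClasses N), b ((s • K).out : N) = b (K.out : N) := by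
    intro s K
    induction K using Quotient.inductionOn with
    | h y =>
      have h1 := cl_out (b := fun x : N => b x) hbi.1 (MulAut.conjNormal (s : G) y)
      have h2 := cl_out (b := fun x : N => b x) hbi.1 y
      change b ((ConjClasses.mk (MulAut.conjNormal (s : G) y)).out : N) =
        b ((ConjClasses.mk y).out : N)
      rw [h1, h2, MulAut.conjNormal_apply, hb]
  have hwinv : ∀ (s : S) (K : ConjClasses N), w (s • K) = w K := by
    intro s K
    have e1 := congrFun (hw (s • K)) (MulAut.conjNormal (s : G) x₀)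
    have e2 := congrFun (hw K) x₀
    rw [Pi.smul_apply, smul_eq_mul, mulF_fin] at e1 e2
    have h3 : b ((MulAut.conjNormal (s : G) x₀ : N) : G) = b x₀ := by
      rw [MulAut.conjNormal_apply, hb]
    rw [h3] at e1
    have h4 : ∑ t : N, cs F (s • K) t * b ((t⁻¹ * MulAut.conjNormal (s : G) x₀ : N) : G) =
        ∑ t : N, cs F K t * b ((t⁻¹ * x₀ : N) : G) := by
      refine (Fintype.sum_equiv (MulAut.conjNormal (s : G) : MulAut N).toEquiv _ _ ?_).symm
      intro t
      have h5 : cs F (s • K) ((MulAut.conjNormal (s : G) : MulAut N).toEquiv t) = cs F K t := by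
        have h6 : (ConjClasses.mk ((MulAut.conjNormal (s : G) : MulAut N).toEquiv t) = s • K) ↔
            (ConjClasses.mk t = K) := by
          have h7 : ConjClasses.mk ((MulAut.conjNormal (s : G) : MulAut N).toEquiv t) =
            s • ConjClasses.mk t := rfl
          rw [h7]
          exact (MulAction.injective s).eq_iff
        exact cs_congr h6
      have h8 : b ((((MulAut.conjNormal (s : G) : MulAut N).toEquiv t)⁻¹ *
          MulAut.conjNormal (s : G) x₀ : N) : G) = b ((t⁻¹ * x₀ : N) : G) := by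
        have h9 : ((MulAut.conjNormal (s : G) : MulAut N).toEquiv t)⁻¹ *
          MulAut.conjNormal (s : G) x₀ = MulAut.conjNormal (s : G) (t⁻¹ * x₀) := by
          rw [map_mul, map_inv]
          rfl
        rw [h9, MulAut.conjNormal_apply, hb]
      rw [h5, h8]
    rw [h4, e2] at e1
    exact (mul_right_cancel₀ hx₀ e1).symm
  have horb' := horb ℓ F F S (ConjClasses N) hℓ hF hS (fun K => b (K.out : N) * w K)
    (fun s K => by simp only [hout s K, hwinv s K])
  rw [finsum_eq_sum_of_fintype, hsum] at horb'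
  obtain ⟨K, hKf, hK⟩ : ∃ K ∈ MulAction.fixedPoints S (ConjClasses N),
      b (K.out : N) * w K ≠ 0 := by
    by_contra hcon
    push Not at hcon
    have h0 : ∑ᶠ (t : ConjClasses N) (_ : t ∈ MulAction.fixedPoints S (ConjClasses N)),
        b (t.out : N) * w t = 0 :=
      finsum_eq_zero_of_forall_eq_zero fun t => by
        rw [finsum_eq_if]
        split_ifs with ht
        · exact hcon t ht
        · rfl
    rw [h0] at horb'
    exact one_ne_zero horb'
  have hKo : ConjClasses.mk (K.out : N) = K := Quotient.out_eq _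
  refine ⟨K.out, w K, left_ne_zero_of_mul hK, right_ne_zero_of_mul hK, ?_, ?_⟩
  · rw [hKo]
    exact hw K
  · intro t ht
    rw [← hST, Subgroup.mem_sup_of_normal_right] at ht
    obtain ⟨s, hs, n, hn, rfl⟩ := ht
    -- `s K = K`
    have h1 : (⟨s, hs⟩ : S) • K = K := hKf ⟨s, hs⟩
    have h2 : ConjClasses.mk (MulAut.conjNormal s (MulAut.conjNormal n (K.out : N))) = K := by
      have h3 : ConjClasses.mk (MulAut.conjNormal n (K.out : N)) = K := by
        conv_rhs => rw [← hKo]
        rw [ConjClasses.mk_eq_mk_iff_isConj]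
        refine (isConj_iff.2 ⟨⟨n, hn⟩, ?_⟩).symm
        apply Subtype.ext
        rw [MulAut.conjNormal_apply]
        rfl
      conv_rhs => rw [← h1]
      conv_rhs => rw [← h3]
      rfl
    rw [← hKo, ConjClasses.mk_eq_mk_iff_isConj] at h2
    obtain ⟨c, hc⟩ := isConj_iff.1 h2
    refine ⟨c, c.2, ?_⟩
    rw [hKo] at hc
    have hc' := congrArg (Subtype.val : N → G) hc
    rw [Subgroup.coe_mul, Subgroup.coe_mul, Subgroup.coe_inv, MulAut.conjNormal_apply,
      MulAut.conjNormal_apply] at hc'
    rw [Subgroup.mem_centralizer_singleton_iff]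
    generalize ((K.out : N) : G) = u at hc'
    conv_rhs => rw [← hc']
    group

/-- truncation: the class meets the centraliser of a good complement -/
theorem class_meets {ℓ : ℕ} (hℓ : ℓ.Prime) (hF : CharP F ℓ) (horb : OrbStmt)
    {N : Subgroup G} [N.Normal] {b : G → F} (hb : IsCl b) {x : N} {w : F} (hw0 : w ≠ 0)
    (hw : mulF (cs F (ConjClasses.mk x)) (fun x : N => b x) = w • (fun x : N => b x))
    {P : Subgroup G} (hP : IsPGroup ℓ P)
    (hPT : ∀ p ∈ P, ∃ m ∈ N, m * p ∈ Subgroup.centralizer ({(x : G)} : Set G))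
    (hgd : ∃ y ∈ N, y ∈ Subgroup.centralizer (P : Set G) ∧ b y ≠ 0) :
    ∃ n : N, (n : G) * x * (n : G)⁻¹ ∈ Subgroup.centralizer (P : Set G) := by
  classical
  have := Fintype.ofFinite N
  obtain ⟨y, hyN, hyP, hy⟩ := hgd
  let : MulAction P N := MulAction.compHom N ((MulAut.conjNormal : G →* MulAut N).comp P.subtype)
  have hsm : ∀ (p : P) (t : N), ((p • t : N) : G) = p * t * (p : G)⁻¹ := by
    intro p t
    exact MulAut.conjNormal_apply (p : G) t
  have hmk : ∀ (p : P) (t : N), (ConjClasses.mk (p • t) = ConjClasses.mk x) ↔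
      (ConjClasses.mk t = ConjClasses.mk x) := by
    have key : ∀ (p : G) (_ : ∃ m ∈ N, m * p ∈ Subgroup.centralizer ({(x : G)} : Set G)) (t t' : N),
        (t' : G) = p * t * p⁻¹ → IsConj t x → IsConj t' x := by
      rintro p ⟨m, hm, hmp⟩ t t' ht' hc
      obtain ⟨c, hc⟩ := isConj_iff.1 hc
      have hc' := congrArg (Subtype.val : N → G) hc
      rw [Subgroup.coe_mul, Subgroup.coe_mul, Subgroup.coe_inv] at hc'
      rw [Subgroup.mem_centralizer_singleton_iff] at hmp
      refine isConj_iff.2 ⟨⟨m * (p * c * p⁻¹), mul_mem hm (Subgroup.Normal.conj_mem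
        inferInstance _ c.2 _)⟩, ?_⟩
      apply Subtype.ext
      rw [Subgroup.coe_mul, Subgroup.coe_mul, Subgroup.coe_inv]
      change m * (p * c * p⁻¹) * t' * (m * (p * c * p⁻¹))⁻¹ = (x : G)
      rw [ht']
      have e1 : m * (p * c * p⁻¹) * (p * t * p⁻¹) * (m * (p * c * p⁻¹))⁻¹ =
          m * p * (c * t * (c : G)⁻¹) * (m * p)⁻¹ := by group
      rw [e1, hc', hmp]
      group
    intro p t
    rw [ConjClasses.mk_eq_mk_iff_isConj, ConjClasses.mk_eq_mk_iff_isConj]
    constructor
    · intro h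
      refine key ((p : G)⁻¹) (hPT _ (inv_mem p.2)) (p • t) t ?_ h
      rw [hsm]
      group
    · intro h
      exact key (p : G) (hPT _ p.2) t (p • t) (hsm p t) h
  have h1 := congrFun hw ⟨y, hyN⟩
  rw [mulF, Pi.smul_apply, smul_eq_mul] at h1
  have h2 := horb ℓ F F P N hℓ hF hP
    (fun t : N => cs F (ConjClasses.mk x) t * b ((t⁻¹ * ⟨y, hyN⟩ : N) : G)) (by
      intro p t
      have e1 : cs F (ConjClasses.mk x) (p • t) = cs F (ConjClasses.mk x) t :=
        cs_congr (hmk p t)
      have e2 : b (((p • t)⁻¹ * ⟨y, hyN⟩ : N) : G) = b ((t⁻¹ * ⟨y, hyN⟩ : N) : G) := by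
        rw [Subgroup.coe_mul, Subgroup.coe_inv, hsm, Subgroup.coe_mul, Subgroup.coe_inv]
        change b (((p : G) * t * (p : G)⁻¹)⁻¹ * y) = b ((t : G)⁻¹ * y)
        have h3 := Subgroup.mem_centralizer_iff.1 hyP (p : G) p.2
        have e3 : ((p : G) * t * (p : G)⁻¹)⁻¹ * y = (p : G) * ((t : G)⁻¹ * y) * (p : G)⁻¹ := by
          have e4 : y = (p : G) * y * (p : G)⁻¹ := by rw [h3]; group
          conv_lhs => rw [e4]
          group
        rw [e3, hb]
      simp only [e1, e2])
  have h3 : w * b y = ∑ᶠ (t : N) (_ : t ∈ MulAction.fixedPoints P N),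
      cs F (ConjClasses.mk x) t * b ((t⁻¹ * ⟨y, hyN⟩ : N) : G) := by
    rw [← h2]
    exact h1.symm
  obtain ⟨t, ht, htn⟩ : ∃ t ∈ MulAction.fixedPoints P N,
      cs F (ConjClasses.mk x) t * b ((t⁻¹ * ⟨y, hyN⟩ : N) : G) ≠ 0 := by
    by_contra hcon
    push Not at hcon
    have h0 : ∑ᶠ (t : N) (_ : t ∈ MulAction.fixedPoints P N),
        cs F (ConjClasses.mk x) t * b ((t⁻¹ * ⟨y, hyN⟩ : N) : G) = 0 :=
      finsum_eq_zero_of_forall_eq_zero fun t => by
        rw [finsum_eq_if]
        split_ifs with ht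
        · exact hcon t ht
        · rfl
    rw [h0] at h3
    exact mul_ne_zero hw0 hy h3
  have h4 : ConjClasses.mk t = ConjClasses.mk x := by
    by_contra hcon
    apply left_ne_zero_of_mul htn
    unfold cs
    rw [if_neg hcon]
  rw [ConjClasses.mk_eq_mk_iff_isConj] at h4
  obtain ⟨c, hc⟩ := isConj_iff.1 h4.symm
  refine ⟨c, ?_⟩
  have hc' := congrArg (Subtype.val : N → G) hc
  rw [Subgroup.coe_mul, Subgroup.coe_mul, Subgroup.coe_inv] at hc'
  rw [hc', Subgroup.mem_centralizer_iff]
  intro p hp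
  have h5 := congrArg (Subtype.val : N → G) (ht ⟨p, hp⟩)
  rw [hsm] at h5
  change p * t * p⁻¹ = (t : G) at h5
  rw [mul_inv_eq_iff_eq_mul] at h5
  exact h5

/-- the order of a good complement -/
theorem card_compl {N P T : Subgroup G} [N.Normal] (h : P ⊓ N = ⊥) (e : P ⊔ N = T) :
    Nat.card P = N.relIndex T := by
  rw [← e, Subgroup.relIndex_sup_right, ← Subgroup.inf_relIndex_right, inf_comm, h,
    Subgroup.relIndex_bot_left]

theorem card_of_relIndex {N T : Subgroup G} (h : N ≤ T) :
    Nat.card T = N.relIndex T * Nat.card N := by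
  have h1 := Subgroup.card_mul_index (N.subgroupOf T)
  rw [Nat.card_congr (Subgroup.subgroupOfEquivOfLe h).toEquiv] at h1
  rw [← h1, mul_comm]
  rfl

theorem cmp (hmat : MatStmt) (horb : OrbStmt) : CmpStmt := by
  intro ℓ F _ hF G _ _ N T b hNB hNT hk
  obtain ⟨hNn, hbc, hb0, hblk, hprc⟩ := hNB
  obtain ⟨k, hk⟩ := hk
  have := hNn
  have hℓ := hF.prime
  have : Fact ℓ.Prime := ⟨hℓ⟩
  have hchar := hF.char
  have hne : ∃ x : N, b x ≠ 0 := by
    by_contra hcon
    push Not at hcon
    exact hblk.2.1 (funext hcon)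
  have hm4 := (hmat ℓ F hF N (fun x : N => b x) ⟨hblk, hprc⟩).2.2.2
  obtain ⟨x, w, hbx, hw0, hw, hfix⟩ := exists_class hℓ hchar horb hbc hblk.1 hne hm4 hNT hk
  have hcop : ¬ ℓ ∣ Nat.card (N ⊓ Subgroup.centralizer ({(x : G)} : Set G) : Subgroup G) := by
    rw [card_cent]
    intro h
    exact hbx (hprc.2 x h)
  set C : Subgroup G := T ⊓ Subgroup.centralizer ({(x : G)} : Set G) with hC
  have hCN : C ⊔ N = T := by
    apply le_antisymm (sup_le inf_le_left hNT)
    intro t ht
    obtain ⟨m, hm, hmt⟩ := hfix t ht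
    have e : t = (m⁻¹ * (m * t)) := by group
    rw [e]
    exact mul_mem ((le_sup_right : N ≤ C ⊔ N) (inv_mem hm))
      ((le_sup_left : C ≤ C ⊔ N) (Subgroup.mem_inf.2 ⟨mul_mem (hNT hm) ht, hmt⟩))
  have hNC : N ⊓ C = N ⊓ Subgroup.centralizer ({(x : G)} : Set G) := by
    rw [hC, ← inf_assoc, inf_eq_left.2 hNT]
  have hcardC : Nat.card C = ℓ ^ k *
      Nat.card (N ⊓ Subgroup.centralizer ({(x : G)} : Set G) : Subgroup G) := by
    have h1 := card_of_relIndex (inf_le_right : N ⊓ C ≤ C)
    rw [Subgroup.inf_relIndex_right, ← Subgroup.relIndex_sup_right C N, hCN, hk, hNC] at h1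
    exact h1
  have hTcard : Nat.card T = ℓ ^ k * Nat.card N := by rw [card_of_relIndex hNT, hk]
  -- subgroups of order `ℓ ^ k` of `C` are complements
  have htriv : ∀ P : Subgroup G, IsPGroup ℓ P →
      P ≤ Subgroup.centralizer ({(x : G)} : Set G) → P ⊓ N = ⊥ := by
    intro P hP hPx
    have h1 : IsPGroup ℓ (P ⊓ N : Subgroup G) := hP.to_le inf_le_left
    obtain ⟨j, hj⟩ := IsPGroup.iff_card.1 h1
    have h2 : Nat.card (P ⊓ N : Subgroup G) ∣
        Nat.card (N ⊓ Subgroup.centralizer ({(x : G)} : Set G) : Subgroup G) :=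
      Subgroup.card_dvd_of_le (le_inf inf_le_right (inf_le_left.trans hPx))
    rcases Nat.eq_zero_or_pos j with rfl | hj0
    · rw [pow_zero, Subgroup.card_eq_one] at hj
      exact hj
    · exfalso
      rw [hj] at h2
      exact hcop (dvd_trans (dvd_pow_self ℓ hj0.ne') h2)
  constructor
  · obtain ⟨P₀, hP₀⟩ := Sylow.exists_subgroup_card_pow_prime (G := C) ℓ (n := k)
      (by rw [hcardC]; exact Dvd.intro _ rfl)
    set P : Subgroup G := P₀.map C.subtype with hPdef
    have hPc : Nat.card P = ℓ ^ k := by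
      rw [hPdef, Subgroup.card_map_of_injective C.subtype_injective, hP₀]
    have hPC : P ≤ C := by
      rintro _ ⟨y, _, rfl⟩
      exact y.2
    have hPp : IsPGroup ℓ P := IsPGroup.of_card hPc
    have hPN := htriv P hPp (hPC.trans inf_le_right)
    refine ⟨P, ⟨hPp, hPN, x, x.2, ?_, hbx⟩, ?_⟩
    · rw [Subgroup.mem_centralizer_iff]
      intro p hp
      have h1 := (hPC.trans inf_le_right) hp
      exact Subgroup.mem_centralizer_singleton_iff.1 h1
    · apply Subgroup.eq_of_le_of_card_ge
      · exact sup_le (hPC.trans inf_le_left) hNT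
      · rw [hTcard, card_of_relIndex (le_sup_right : N ≤ P ⊔ N), ← card_compl hPN rfl, hPc]
  · -- conjugacy
    have key : ∀ P : Subgroup G, Good ℓ N b P → P ⊔ N = T →
        ∃ n ∈ N, conjS n P ≤ C ∧ Nat.card (conjS n P) = ℓ ^ k := by
      intro P hP hPT
      obtain ⟨n, hn⟩ := class_meets hℓ hchar horb hbc hw0 hw hP.1
        (fun p hp => hfix p (by rw [← hPT]; exact (le_sup_left : P ≤ P ⊔ N) hp)) hP.2.2
      refine ⟨(n : G)⁻¹, inv_mem n.2, ?_, ?_⟩
      · intro y hy
        rw [mem_conjS, inv_inv] at hy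
        refine Subgroup.mem_inf.2 ⟨?_, ?_⟩
        · have h1 : (n : G) * y * (n : G)⁻¹ ∈ T := by
            rw [← hPT]; exact (le_sup_left : P ≤ P ⊔ N) hy
          have h2 := mul_mem (mul_mem (inv_mem (hNT n.2)) h1) (hNT n.2)
          have e : (n : G)⁻¹ * ((n : G) * y * (n : G)⁻¹) * n = y := by group
          rwa [e] at h2
        · rw [Subgroup.mem_centralizer_singleton_iff]
          have h1 := Subgroup.mem_centralizer_iff.1 hn _ hy
          have e : (n : G) * (y * x) = (n : G) * (x * y) := by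
            have e1 : (n : G) * y * (n : G)⁻¹ * (n * x * (n : G)⁻¹) * n = (n : G) * (y * x) := by
              group
            have e2 : (n : G) * x * (n : G)⁻¹ * (n * y * (n : G)⁻¹) * n = (n : G) * (x * y) := by
              group
            rw [← e1, ← e2, h1]
          exact mul_left_cancel e
      · rw [card_conjS, card_compl hP.2.1 hPT, hk]
    intro P P' hP hP' hPT hPT'
    obtain ⟨n, hn, hnC, hnc⟩ := key P hP hPT
    obtain ⟨n', hn', hnC', hnc'⟩ := key P' hP' hPT'
    have hfac : (Nat.card C).factorization ℓ = k := by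
      rw [hcardC, Nat.factorization_mul (pow_ne_zero _ hℓ.ne_zero) Nat.card_pos.ne',
        hℓ.factorization_pow]
      simp only [Finsupp.coe_add, Pi.add_apply, Finsupp.single_eq_same]
      rw [Nat.factorization_eq_zero_of_not_dvd hcop, add_zero]
    have hcS : ∀ Q : Subgroup G, Q ≤ C → Nat.card Q = ℓ ^ k →
        Nat.card (Q.subgroupOf C) = ℓ ^ (Nat.card C).factorization ℓ := by
      intro Q hQ hQc
      rw [hfac, Nat.card_congr (Subgroup.subgroupOfEquivOfLe hQ).toEquiv, hQc]
    let A : Sylow ℓ C := Sylow.ofCard _ (hcS _ hnC hnc)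
    let B : Sylow ℓ C := Sylow.ofCard _ (hcS _ hnC' hnc')
    obtain ⟨u, hu⟩ := MulAction.exists_smul_eq C A B
    -- `conjS u (conjS n P) = conjS n' P'`
    have hconj : conjS (u : G) (conjS n P) = conjS n' P' := by
      have h1 : (A : Subgroup C) = (conjS n P).subgroupOf C := rfl
      have h2 : (B : Subgroup C) = (conjS n' P').subgroupOf C := rfl
      have h3 := congrArg (fun S : Sylow ℓ C => (S : Subgroup C)) hu
      simp only [Sylow.coe_subgroup_smul] at h3
      have hsmul : ∀ z : C, (MulAut.conj u)⁻¹ • z = u⁻¹ * z * u := by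
        intro z
        rw [← map_inv, MulAut.smul_def, MulAut.conj_apply, inv_inv]
      ext y
      constructor
      · intro hy
        have hy' := mem_conjS.1 hy
        have hyC : y ∈ C := by
          have h4 := mul_mem (mul_mem u.2 (hnC hy')) (inv_mem u.2)
          have e : (u : G) * ((u : G)⁻¹ * y * u) * (u : G)⁻¹ = y := by group
          rwa [e] at h4
        have h5 : (⟨y, hyC⟩ : C) ∈ (B : Subgroup C) := by
          rw [← h3, Subgroup.mem_pointwise_smul_iff_inv_smul_mem, hsmul, h1,
            Subgroup.mem_subgroupOf]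
          exact hy'
        rw [h2, Subgroup.mem_subgroupOf] at h5
        exact h5
      · intro hy
        have hyC : y ∈ C := hnC' hy
        have h5 : (⟨y, hyC⟩ : C) ∈ (B : Subgroup C) := by
          rw [h2, Subgroup.mem_subgroupOf]
          exact hy
        rw [← h3, Subgroup.mem_pointwise_smul_iff_inv_smul_mem, hsmul, h1,
          Subgroup.mem_subgroupOf] at h5
        rw [mem_conjS]
        exact h5
    have hfin : P' = conjS (n'⁻¹ * (u : G) * n) P := by
      rw [← conjS_conjS, ← conjS_conjS, hconj, conjS_conjS, inv_mul_cancel, conjS_one]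
    -- write `n'⁻¹ u n = m p` with `m ∈ N`, `p ∈ P`
    have hv : n'⁻¹ * (u : G) * n ∈ T :=
      mul_mem (mul_mem (inv_mem (hNT hn')) u.2.1) (hNT hn)
    rw [← hPT, sup_comm, Subgroup.mem_sup_of_normal_left] at hv
    obtain ⟨m, hm, p, hp, hmp⟩ := hv
    refine ⟨m, hm, ?_⟩
    rw [hfin, ← hmp, ← conjS_conjS]
    congr 1
    ext y
    rw [mem_conjS]
    constructor
    · intro h
      have h1 := mul_mem (mul_mem hp h) (inv_mem hp)
      have e : p * (p⁻¹ * y * p) * p⁻¹ = y := by group
      rwa [e] at h1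
    · intro h
      exact mul_mem (mul_mem (inv_mem hp) h) hp

end Pool.Agent.PP.H6
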