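import Pool.Agent.Helper6_PP.ComC

/-!
# Squad PP, module COM: the final statement
-/

open scoped BigOperators commutatorElement

set_option linter.unusedSectionVars false

noncomputable section

namespace Pool.Agent.PP.H6

open Pool.Agent.Helper51_AWC Pool.Agent.Helper79_WRA Pool.Agent.PP Pool.Agent.PP.H46
open Pool.Agent.AWR.H39

/-- COM: existence of the components. -/
theorem com (hibn : IbnStmt) (heig : EigStmt) (hinn : InnStmt) (hxfs : XfsStmt) : ComStmt := by
  intro ℓ hℓ F _ hF G _ _ N hch hO hnc hns b hb hst hDZ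
  have h : IsChief (N ⊓ Subgroup.center G) N := isChief_of_chief hch
  have hN : N.Normal := hch.1
  have hna : ¬ ⁅N, N⁆ ≤ N ⊓ Subgroup.center G := by
    intro hh
    obtain ⟨x, hx, y, hy, hxy⟩ := hnc
    apply hxy
    have h1 := hh (Subgroup.commutator_mem_commutator hx hy)
    rw [commutatorElement_def] at h1
    exact (Subgroup.mem_inf.1 h1).2
  have hfbk : FbkStmt := fbk hibn heig
  have hfcu : FcuStmt := fcu hibn heig
  have hcmc : H87.CmcStmt := H87.cmc hfbk hinn
  have hZ : ¬ ℓ ∣ Nat.card (Subgroup.center N) := center_card hO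
  have hcl : IsCl (ext0 N b) := by
    intro x y
    have h1 : y ∈ stabF (ext0 N b) := by rw [hst]; exact Subgroup.mem_top y
    exact h1 x
  have hbcl : IsCl b := hb.1.1
  have hco : (fun t : N => ext0 N b t) = b := by
    funext t
    exact ext0_of_mem _ t.2
  have hS : SBlk N (ext0 N b) := by
    refine ⟨fun x hx => ext0_of_not_mem _ hx, hcl, ?_⟩
    rw [hco]
    exact hb
  have hcomm : ∀ i j : CI N, i ≠ j → ∀ x ∈ (CK N i).subgroupOf N, ∀ y ∈ (CK N j).subgroupOf N,
      x * y = y * x := fun i j hij => sub_comm (ck_comm h hna i j hij)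
  have hsup : (⨆ i, (CK N i).subgroupOf N) = ⊤ := by
    rw [eq_top_iff]
    intro x _
    have h1 : N ≤ (⨆ i, (CK N i).subgroupOf N).map N.subtype := by
      conv_lhs => rw [← ck_sup h]
      apply iSup_le
      intro i y hy
      exact ⟨⟨y, ck_le i hy⟩,
        (le_iSup (fun i => (CK N i).subgroupOf N) i) (Subgroup.mem_subgroupOf.2 hy), rfl⟩
    obtain ⟨y, hy, hyx⟩ := h1 x.2
    have : y = x := Subtype.ext hyx
    rw [← this]
    exact hy
  have hbk : ∀ i : CI N, ∃ f₁ : (CK N i).subgroupOf N → F, BlkU ((CK N i).subgroupOf N) b f₁ :=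
    fun i => (hfbk ℓ F hF N ((CK N i).subgroupOf N) ((CO N i).subgroupOf N)
      (sub_comm (co_comm h hna i)) (sub_sup (ck_le i) (co_le i) (co_sup h i)) hZ b hb).1
  choose fK hfK using hbk
  have hstab : ∀ (i : CI N) {g : G}, g ∈ Subgroup.normalizer (CK N i : Set G) → ∀ x : G,
      bx N (CK N i) (fK i) (g * x * g⁻¹) = bx N (CK N i) (fK i) x := by
    intro i g hg x
    refine bx_cl hN (ck_le i) ?_ hb hst (hfK i) hg x
    intro f₁ f₂ b' hb'
    exact (hfbk ℓ F hF N ((CK N i).subgroupOf N) ((CO N i).subgroupOf N)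
      (sub_comm (co_comm h hna i)) (sub_sup (ck_le i) (co_le i) (co_sup h i)) hZ b' hb').2.1 f₁ f₂
  have hT : ∀ i : CI N, CK N i ≤ Subgroup.normalizer (CK N i : Set G) :=
    fun i => Subgroup.le_normalizer
  have hrew : ∀ i : CI N, (fun t : (CK N i).subgroupOf (Subgroup.normalizer (CK N i : Set G)) =>
      bx N (CK N i) (fK i) ((t : Subgroup.normalizer (CK N i : Set G)) : G)) =
      fun t => fK i (eqv (CK N i) N (Subgroup.normalizer (CK N i : Set G)) (ck_le i) (hT i) t) := by
    intro i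
    funext t
    rw [← eqv_coe (ck_le i) (hT i) t, bx_coe]
  have hposK : ∀ i : CI N, ¬ DZ ℓ (fK i) := by
    intro i
    refine H87.cmb hF (fun i => (CK N i).subgroupOf N) hcomm hsup hZ b hbcl hDZ ?_ i (fK i)
      (hfK i).2
    intro i j
    obtain ⟨g, hg⟩ := minAdm_transitive h hna i.2 j.2
    refine ⟨MulAut.conjNormal g, ?_, ?_⟩
    · intro y
      have h2 := hcl (y : G) g
      rw [ext0_of_mem _ y.2, ext0_of_mem _ (hN.conj_mem _ y.2 g)] at h2
      rw [← h2]
      congr 1
    · ext y
      constructor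
      · rintro ⟨x, hx, rfl⟩
        rw [Subgroup.mem_subgroupOf]
        change ((MulAut.conjNormal g x : N) : G) ∈ j.1
        rw [MulAut.conjNormal_apply, hg]
        exact ⟨(x : G), Subgroup.mem_subgroupOf.1 hx, rfl⟩
      · intro hy
        have hy' : (y : G) ∈ j.1 := Subgroup.mem_subgroupOf.1 hy
        rw [hg] at hy'
        obtain ⟨x, hx, hxy⟩ := hy'
        refine ⟨⟨x, ck_le i hx⟩, Subgroup.mem_subgroupOf.2 hx, ?_⟩
        apply Subtype.ext
        change ((MulAut.conjNormal g (⟨x, ck_le i hx⟩ : N) : N) : G) = y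
        rw [MulAut.conjNormal_apply]
        exact hxy
  have hperm : ∀ (g : G) (i : CI N), ∃ j, ∀ k ∈ (CK N i).subgroupOf N,
      ∃ t ∈ (CK N j).subgroupOf N, (t : G) = g * k * g⁻¹ := by
    intro g i
    refine ⟨cact h g i, ?_⟩
    intro k hk
    have h1 : g * (k : G) * g⁻¹ ∈ CK N (cact h g i) := by
      rw [← cact_map]
      exact ⟨(k : G), Subgroup.mem_subgroupOf.1 hk, rfl⟩
    exact ⟨⟨g * (k : G) * g⁻¹, ck_le _ h1⟩, Subgroup.mem_subgroupOf.2 h1, rfl⟩
  have hfix : ∀ g ∈ XF (ext0 N b) N, ∀ i, cact h g i = i := by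
    intro g hg i
    have h1 : BlkU ((CK N i).subgroupOf N) (fun t : N => ext0 N b t) (fK i) := by
      rw [hco]
      exact hfK i
    have h2 := hcmc ℓ F hF G N hN (ext0 N b) hS (CI N) (fun i => (CK N i).subgroupOf N) hcomm hsup
      hZ hperm i (fK i) h1 (hposK i) g hg
    apply Subtype.ext
    change cj g i.1 = i.1
    apply Subgroup.eq_of_le_of_card_ge
    · rintro _ ⟨x, hx, rfl⟩
      obtain ⟨t, ht, hte⟩ := h2 ⟨x, ck_le i hx⟩ (Subgroup.mem_subgroupOf.2 hx)
      change g * x * g⁻¹ ∈ i.1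
      have hte' : (t : G) = g * x * g⁻¹ := hte
      rw [← hte']
      exact Subgroup.mem_subgroupOf.1 ht
    · exact (Subgroup.card_map_of_injective (MulAut.conj g).injective).ge
  refine ⟨CI N, inferInstance, ci_nonempty h, CK N, fun i => bx N (CK N i) (fK i), cact h, ?_⟩
  refine { le := ck_le, comm := ck_comm h hna, sup := ck_sup h, center := hZ, map := cact_map h
           mul := cact_mul h, norm := cact_norm h, blk := ?_, sblk := ?_, pos := ?_
           mu := ck_mu h hna hns, xf := ?_ }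
  · intro i
    have e : (fun t : (CK N i).subgroupOf N => bx N (CK N i) (fK i) ((t : N) : G)) = fK i := by
      funext t
      exact bx_coe _ _
    rw [e]
    exact hfK i
  · intro i
    refine ⟨?_, ?_, ?_⟩
    · intro x hx
      exact bx_not _ (fun h1 => hx (Subgroup.mem_subgroupOf.2 h1))
    · intro x y
      exact hstab i y.2 x
    · rw [hrew]
      exact H18.blk_equiv _ (hfK i).1
  · intro i
    rw [hrew, dz_iff (eqv (CK N i) N (Subgroup.normalizer (CK N i : Set G)) (ck_le i) (hT i))]
    exact hposK i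
  · intro g hg i
    refine ⟨hfix g hg i, ?_⟩
    intro hgn
    have hx := hxfs ℓ F hF G N hN (ext0 N b) hS
    obtain ⟨u, u', hu⟩ := (hx.1 g).1 hg
    have hu' := (hx.2.2.2.1 g u u' hu).1
    have hU := unit_unt hcl hu hu'
    have hK' : ((CO N i).subgroupOf N).map (MulAut.conjNormal g : MulAut N).toMonoidHom =
        (CO N i).subgroupOf N := by
      have hCO : (CO N i).map (MulAut.conj g).toMonoidHom = CO N i := by
        unfold CO
        rw [Subgroup.map_iSup]
        congr 1
        funext j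
        rw [cact_map h, hfix g hg]
      ext y
      constructor
      · rintro ⟨x, hx, rfl⟩
        rw [Subgroup.mem_subgroupOf]
        change ((MulAut.conjNormal g x : N) : G) ∈ CO N i
        rw [MulAut.conjNormal_apply, ← hCO]
        exact ⟨(x : G), Subgroup.mem_subgroupOf.1 hx, rfl⟩
      · intro hy
        have hy' : (y : G) ∈ CO N i := Subgroup.mem_subgroupOf.1 hy
        rw [← hCO] at hy'
        obtain ⟨x, hx, hxy⟩ := hy'
        refine ⟨⟨x, co_le i hx⟩, Subgroup.mem_subgroupOf.2 hx, ?_⟩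
        apply Subtype.ext
        change ((MulAut.conjNormal g (⟨x, co_le i hx⟩ : N) : N) : G) = y
        rw [MulAut.conjNormal_apply]
        exact hxy
    obtain ⟨w₁, wi₁, hU₁⟩ := hfcu ℓ F hF N ((CK N i).subgroupOf N) ((CO N i).subgroupOf N)
      (sub_comm (co_comm h hna i)) (sub_sup (ck_le i) (co_le i) (co_sup h i)) hZ b hb (fK i)
      (hfK i) (MulAut.conjNormal g) (conjE hgn) (fun k => rfl) hK' _ _ hU
    have h3 := unt_unit (ck_le i) (hfK i).1.1.1 (fun g' hg' x => hstab i hg' x) hgn hU₁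
    exact Subgroup.subset_closure ⟨_, _, h3⟩

end Pool.Agent.PP.H6
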