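import Pool.Agent.Helper6_PP.Slice

/-!
# Squad PP, module FCU: units of a central product give units of the factors
-/

open scoped BigOperators

set_option linter.unusedSectionVars false

noncomputable section

namespace Pool.Agent.PP.H6

open Pool.Agent.Helper51_AWC Pool.Agent.Helper79_WRA Pool.Agent.PP Pool.Agent.PP.H46

section fcu

variable {F Y : Type} [Field F] [Group Y] [Finite Y]

theorem dl_mulF (a : Y → F) (p y : Y) : mulF (dl F p) a y = a (p⁻¹ * y) := by
  classical
  have := Fintype.ofFinite Y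
  rw [mulF, finsum_eq_sum_of_fintype, Finset.sum_eq_single p]
  · unfold dl
    rw [if_pos rfl, one_mul]
  · intro t _ ht
    unfold dl
    rw [if_neg ht, zero_mul]
  · intro h
    exact absurd (Finset.mem_univ _) h

/-- the commutation rule in terms of elements -/
theorem comm_iff (w : Y → F) (m n : Y) : (∀ y, w (m * y * n⁻¹) = w y) ↔
    ma w * ma (dl F n) = ma (dl F m) * ma w := by
  rw [← ma_mul, ← ma_mul, ma_injective.eq_iff]
  constructor
  · intro h
    funext y
    rw [mulF_dl, dl_mulF]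
    have := h (m⁻¹ * y)
    rw [← this]
    congr 1
    group
  · intro h y
    have := congrFun h (m * y)
    rw [mulF_dl, dl_mulF] at this
    rw [this]
    congr 1
    group

theorem isCl_of_comm {a : Y → F} (h : ∀ n : Y, ma a * ma (dl F n) = ma (dl F n) * ma a) :
    IsCl a := fun x y => (comm_iff a y y).2 (h y) x

theorem comm_of_isCl {a : Y → F} (h : IsCl a) (x : MonoidAlgebra F Y) : ma a * x = x * ma a :=
  comm_ma h x

theorem sl_mulF {K : Subgroup Y} (g : K → F) (a : Y → F) (p : Y) :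
    sl K (mulF (ext0 K g) a) p = mulF g (sl K a p) := by
  classical
  have := Fintype.ofFinite Y
  have := Fintype.ofFinite K
  funext k
  unfold sl mulF
  rw [finsum_eq_sum_of_fintype, finsum_eq_sum_of_fintype]
  have e0 : ∑ t : Y, ext0 K g t * a (t⁻¹ * (k * p)) =
      ∑ t ∈ Finset.univ.filter (fun t : Y => t ∈ K), ext0 K g t * a (t⁻¹ * (k * p)) := by
    symm
    apply Finset.sum_subset (Finset.filter_subset _ _)
    intro t _ ht
    rw [Finset.mem_filter, not_and] at ht
    rw [ext0_of_not_mem _ (ht (Finset.mem_univ _)), zero_mul]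
  have e1 : ∑ t ∈ Finset.univ.filter (fun t : Y => t ∈ K), ext0 K g t * a (t⁻¹ * (k * p)) =
      ∑ t : K, ext0 K g t * a ((t : Y)⁻¹ * (k * p)) := by
    apply Finset.sum_subtype
    intro t
    rw [Finset.mem_filter]
    exact ⟨fun h => h.2, fun h => ⟨Finset.mem_univ _, h⟩⟩
  rw [e0, e1]
  refine Finset.sum_congr rfl fun t _ => ?_
  rw [ext0_of_mem _ t.2]
  congr 2
  rw [Subgroup.coe_mul, Subgroup.coe_inv]
  group

/-- elements of the complement commute with the slices -/
theorem rho_comm {K K' : Subgroup Y} (hc : ∀ x ∈ K, ∀ y ∈ K', x * y = y * x) {n : ℕ}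
    (ρ : Y →* Matrix (Fin n) (Fin n) F) (g : K → F) (p : K') :
    ρ p * ev ρ (ext0 K g) = ev ρ (ext0 K g) * ρ p := by
  rw [← ev_dl ρ (p : Y), ← ev_mulF, ← ev_mulF]
  congr 1
  funext y
  rw [dl_mulF, mulF_dl]
  by_cases hy : (p : Y)⁻¹ * y ∈ K
  · have h1 := hc _ hy p p.2
    have e : (p : Y)⁻¹ * y = y * (p : Y)⁻¹ := by
      have h2 : y = (p : Y) * ((p : Y)⁻¹ * y) := by group
      rw [← h1] at h2
      conv_rhs => rw [h2]
      group
    rw [e]
  · have hy' : y * (p : Y)⁻¹ ∉ K := by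
      intro h
      apply hy
      have h1 := hc _ h p p.2
      have e : (p : Y)⁻¹ * y = y * (p : Y)⁻¹ := by
        have h2 : y = y * (p : Y)⁻¹ * p := by group
        rw [h1] at h2
        conv_lhs => rw [h2]
        group
      rw [e]
      exact h
    rw [ext0_of_not_mem _ hy, ext0_of_not_mem _ hy']

/-- FCU -/
theorem fcu (hibn : IbnStmt) (heig : EigStmt) : FcuStmt := by
  intro ℓ F _ hF Y _ _ K K' hc hs hz f hf f₁ hB γ γ₁ hγ hK' w wi hU
  have := Fintype.ofFinite K'
  obtain ⟨hf₁, hf₁f⟩ := hB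
  obtain ⟨hfw, hfwi, hun, hun', hcm⟩ := hU
  have hcard := card_inter_ne hF hc hs hz
  -- the commutation rules in `Y`
  have cW : ∀ n : Y, ma w * ma (dl F n) = ma (dl F (γ⁻¹ n)) * ma w := fun n =>
    (comm_iff w (γ⁻¹ n) n).1 (fun y => hcm n y)
  have mW : ma w * ma wi = ma f := by rw [← ma_mul, hun]
  have mW' : ma wi * ma w = ma f := by rw [← ma_mul, hun']
  have fW : ma f * ma w = ma w := by rw [← ma_mul, hfw]
  have fV : ma f * ma wi = ma wi := by rw [← ma_mul, hfwi]
  have Vf : ma wi * ma f = ma wi := by rw [← cl_ma hf.1.1, fV]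
  have cV : ∀ n : Y, ma wi * ma (dl F (γ⁻¹ n)) = ma (dl F n) * ma wi := by
    intro n
    calc ma wi * ma (dl F (γ⁻¹ n)) = ma wi * ma f * ma (dl F (γ⁻¹ n)) := by rw [Vf]
      _ = ma wi * ma (dl F (γ⁻¹ n)) * ma f := by
          rw [mul_assoc, cl_ma hf.1.1, ← mul_assoc]
      _ = ma wi * (ma (dl F (γ⁻¹ n)) * ma w) * ma wi := by
          rw [← mW]; simp only [mul_assoc]
      _ = (ma wi * ma w) * ma (dl F n) * ma wi := by
          rw [← cW]; simp only [mul_assoc]
      _ = ma (dl F n) * (ma f * ma wi) := by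
          rw [mW', cl_ma hf.1.1, mul_assoc]
      _ = ma (dl F n) * ma wi := by rw [fV]
  have pV : ∀ n y : Y, wi (n * y * (γ⁻¹ n)⁻¹) = wi y := fun n y =>
    (comm_iff wi n (γ⁻¹ n)).2 (cV n) y
  -- the restriction of the automorphism
  have hγ' : ∀ n : K, ((γ₁⁻¹ n : K) : Y) = γ⁻¹ (n : Y) := by
    intro n
    have h1 := hγ (γ₁⁻¹ n)
    rw [MulAut.apply_inv_self] at h1
    rw [h1, MulAut.inv_apply_self]
  -- slices
  have eW : mulF (ext0 K f₁) w = w := by
    have h1 : mulF (ext0 K f₁) (mulF f w) = mulF f w := by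
      rw [← mulF_assoc, hf₁f]
    rwa [hfw] at h1
  have eV : mulF (ext0 K f₁) wi = wi := by
    have h1 : mulF (ext0 K f₁) (mulF f wi) = mulF f wi := by
      rw [← mulF_assoc, hf₁f]
    rwa [hfwi] at h1
  have sW : ∀ p : K', mulF f₁ (sl K w p) = sl K w p := by
    intro p
    rw [← sl_mulF, eW]
  have sV : ∀ p : K', mulF f₁ (sl K wi p) = sl K wi p := by
    intro p
    rw [← sl_mulF, eV]
  have kW : ∀ (p : K') (n y : K), sl K w p (γ₁⁻¹ n * y * n⁻¹) = sl K w p y := by
    intro p n y
    change w (((γ₁⁻¹ n * y * n⁻¹ : K) : Y) * p) = w (y * p)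
    rw [← hcm n ((y : Y) * p)]
    congr 1
    rw [Subgroup.coe_mul, Subgroup.coe_mul, Subgroup.coe_inv, hγ']
    have h1 := hc _ (K.inv_mem n.2) p p.2
    calc γ⁻¹ (n : Y) * y * (n : Y)⁻¹ * p = γ⁻¹ (n : Y) * y * ((n : Y)⁻¹ * p) := by group
      _ = γ⁻¹ (n : Y) * (y * p) * (n : Y)⁻¹ := by rw [h1]; group
  have kV : ∀ (p : K') (n y : K), sl K wi p (n * y * (γ₁⁻¹ n)⁻¹) = sl K wi p y := by
    intro p n y
    change wi (((n * y * (γ₁⁻¹ n)⁻¹ : K) : Y) * p) = wi (y * p)
    rw [← pV n ((y : Y) * p)]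
    congr 1
    rw [Subgroup.coe_mul, Subgroup.coe_mul, Subgroup.coe_inv, ← hγ']
    have h1 := hc _ (K.inv_mem (γ₁⁻¹ n).2) p p.2
    calc (n : Y) * y * ((γ₁⁻¹ n : K) : Y)⁻¹ * p = (n : Y) * y * (((γ₁⁻¹ n : K) : Y)⁻¹ * p) := by
          group
      _ = (n : Y) * (y * p) * ((γ₁⁻¹ n : K) : Y)⁻¹ := by rw [h1]; group
  have mkW : ∀ (p : K') (n : K), ma (sl K w p) * ma (dl F n) =
      ma (dl F (γ₁⁻¹ n)) * ma (sl K w p) := fun p n =>
    (comm_iff (sl K w p) (γ₁⁻¹ n) n).1 (kW p n)
  have mkV : ∀ (p : K') (n : K), ma (sl K wi p) * ma (dl F (γ₁⁻¹ n)) =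
      ma (dl F n) * ma (sl K wi p) := fun p n =>
    (comm_iff (sl K wi p) n (γ₁⁻¹ n)).1 (kV p n)
  have zcl : ∀ p q : K', IsCl (mulF (sl K w p) (sl K wi q)) := by
    intro p q
    apply isCl_of_comm
    intro m
    obtain ⟨n, rfl⟩ : ∃ n, m = γ₁⁻¹ n := ⟨γ₁ m, by rw [MulAut.inv_apply_self]⟩
    rw [ma_mul, mul_assoc, mkV, ← mul_assoc, mkW, mul_assoc]
  -- not all products are nilpotent
  obtain ⟨p, q, hpq⟩ : ∃ p q : K', ¬ NilF (mulF (sl K w p) (sl K wi q)) := by
    by_contra hcon
    push Not at hcon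
    obtain ⟨n, ρ, hρ, hρf⟩ := exists_rep hibn heig hF hf.1 hf.2.1
    have h1 : ((Nat.card (K ⊓ K' : Subgroup Y) : F) • ev ρ w) *
        ((Nat.card (K ⊓ K' : Subgroup Y) : F) • ev ρ wi) = 0 := by
      rw [ev_slice hc hs, ev_slice hc hs, Finset.sum_mul]
      refine Finset.sum_eq_zero fun p _ => ?_
      rw [Finset.mul_sum]
      refine Finset.sum_eq_zero fun q _ => ?_
      have h2 : ev ρ (ext0 K (sl K w p)) * ρ p * (ev ρ (ext0 K (sl K wi q)) * ρ q) =
          ev ρ (ext0 K (mulF (sl K w p) (sl K wi q))) * (ρ p * ρ q) := by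
        rw [ext0_mul, ev_mulF]
        calc ev ρ (ext0 K (sl K w p)) * ρ p * (ev ρ (ext0 K (sl K wi q)) * ρ q) =
            ev ρ (ext0 K (sl K w p)) * (ρ p * ev ρ (ext0 K (sl K wi q))) * ρ q := by
              simp only [mul_assoc]
          _ = ev ρ (ext0 K (sl K w p)) * (ev ρ (ext0 K (sl K wi q)) * ρ p) * ρ q := by
              rw [rho_comm hc]
          _ = _ := by simp only [mul_assoc]
      rw [h2, ev_nil hρ (ext0_cl hc hs (zcl p q)) (ext0_nil (hcon p q)), zero_mul]
    rw [smul_mul_smul_comm, ← ev_mulF, hun, hρf] at h1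
    have h3 := congrFun (congrFun h1 ⟨0, hρ.1⟩) ⟨0, hρ.1⟩
    rw [Matrix.smul_apply, Matrix.one_apply_eq, Matrix.zero_apply, smul_eq_mul, mul_one] at h3
    exact mul_ne_zero hcard hcard h3
  -- the product is invertible in the centre of the block
  set A := sl K w p with hA
  set B := sl K wi q with hBd
  set z := mulF A B with hzd
  have hzc : IsCl z := zcl p q
  have f₁i : ma f₁ * ma f₁ = ma f₁ := by rw [← ma_mul, hf₁.1.2]
  have f₁c := fun x : MonoidAlgebra F K => cl_ma hf₁.1.1 x
  have f₁A : ma f₁ * ma A = ma A := by rw [← ma_mul, sW]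
  have f₁B : ma f₁ * ma B = ma B := by rw [← ma_mul, sV]
  have f₁z : ma f₁ * ma z = ma z := by rw [hzd, ma_mul, ← mul_assoc, f₁A]
  obtain ⟨c, hcn⟩ := loc hibn heig hF hf₁ hzc
  have hzf : mulF z f₁ = z := by
    apply ma_injective
    rw [ma_mul, ← f₁c, f₁z]
  rw [hzf] at hcn
  have hc0 : c ≠ 0 := by
    rintro rfl
    rw [zero_smul, sub_zero] at hcn
    exact hpq hcn
  obtain ⟨v, hvc, hv⟩ : ∃ v : K → F, IsCl v ∧ mulF z v = f₁ := by
    have hcen : ma z ∈ Subalgebra.center F (MonoidAlgebra F K) := (isCl_iff z).1 hzc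
    have hcen₁ : ma f₁ ∈ Subalgebra.center F (MonoidAlgebra F K) := (isCl_iff f₁).1 hf₁.1.1
    set Z : Subalgebra.center F (MonoidAlgebra F K) := ⟨ma z, hcen⟩ with hZ
    set E : Subalgebra.center F (MonoidAlgebra F K) := ⟨ma f₁, hcen₁⟩ with hE
    have hZE : Z * E = Z := by
      apply Subtype.ext
      change ma z * ma f₁ = ma z
      rw [← f₁c, f₁z]
    have hEE : E * E = E := Subtype.ext f₁i
    have hnil : IsNilpotent (Z - c • E) := by
      obtain ⟨k, hk⟩ := hcn
      refine ⟨k, Subtype.ext ?_⟩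
      rw [ma_sub, ma_smul] at hk
      exact hk
    have hunit : IsUnit (c • (1 : Subalgebra.center F (MonoidAlgebra F K)) + (Z - c • E)) := by
      apply IsNilpotent.isUnit_add_left_of_commute hnil
      · have : c • (1 : Subalgebra.center F (MonoidAlgebra F K)) =
          algebraMap F (Subalgebra.center F (MonoidAlgebra F K)) c := by
          rw [Algebra.algebraMap_eq_smul_one]
        rw [this]
        exact (IsUnit.mk0 c hc0).map _
      · exact Commute.all _ _
    obtain ⟨u, hu⟩ := hunit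
    obtain ⟨v, hv⟩ := ma_surjective (((((u⁻¹ : (Subalgebra.center F (MonoidAlgebra F K))ˣ) :
      Subalgebra.center F (MonoidAlgebra F K)) * E : Subalgebra.center F (MonoidAlgebra F K)) :
        MonoidAlgebra F K))
    refine ⟨v, ?_, ?_⟩
    · rw [isCl_iff, hv]
      exact Subtype.property _
    · apply ma_injective
      rw [ma_mul, hv]
      have h1 : (u : Subalgebra.center F (MonoidAlgebra F K)) * E = Z := by
        have e1 : (Z - c • E) * E = Z - c • E := by
          have e2 : (Z - c • E) * E = Z * E - (c • E) * E := sub_mul _ _ _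
          have e3 : (c • E) * E = c • E := by
            have : (c • E) * E = c • (E * E) := smul_mul_assoc _ _ _
            rw [this, hEE]
          rw [e2, hZE, e3]
        rw [hu, add_mul, e1, smul_mul_assoc, one_mul]
        abel
      have h2 : Z * (((u⁻¹ : (Subalgebra.center F (MonoidAlgebra F K))ˣ) :
          Subalgebra.center F (MonoidAlgebra F K)) * E) = E := by
        rw [← h1]
        calc (u : Subalgebra.center F (MonoidAlgebra F K)) * E *
            (((u⁻¹ : (Subalgebra.center F (MonoidAlgebra F K))ˣ) :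
              Subalgebra.center F (MonoidAlgebra F K)) * E) =
            ((u : Subalgebra.center F (MonoidAlgebra F K)) *
              ((u⁻¹ : (Subalgebra.center F (MonoidAlgebra F K))ˣ) :
                Subalgebra.center F (MonoidAlgebra F K))) * (E * E) := by ring
          _ = E := by rw [Units.mul_inv, one_mul, hEE]
      exact congrArg Subtype.val h2
  have vc := fun x : MonoidAlgebra F K => cl_ma hvc x
  have hABv : ma A * ma B * ma v = ma f₁ := by
    rw [← ma_mul, ← ma_mul, ← hzd, hv]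
  refine ⟨A, mulF B v, ⟨sW p, ?_, ?_, ?_, fun n y => kW p n y⟩⟩
  · rw [← mulF_assoc]
    change mulF (mulF f₁ (sl K wi q)) v = _
    rw [sV]
  · rw [← mulF_assoc, ← hzd, hv]
  · -- `(B v) A = f₁`
    have hg : ma (mulF (mulF B v) A) = ma B * ma A * ma v := by
      rw [ma_mul, ma_mul, mul_assoc, vc, ← mul_assoc]
    have hgc : IsCl (mulF (mulF B v) A) := by
      apply isCl_of_comm
      intro n
      rw [hg]
      calc ma B * ma A * ma v * ma (dl F n) = ma B * (ma A * ma (dl F n)) * ma v := by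
            rw [mul_assoc, vc]; simp only [mul_assoc]
        _ = ma B * ma (dl F (γ₁⁻¹ n)) * ma A * ma v := by
            rw [hA, mkW]; simp only [mul_assoc]
        _ = ma (dl F n) * (ma B * ma A * ma v) := by
            rw [hBd, mkV]; simp only [mul_assoc]
    have hgg : mulF (mulF (mulF B v) A) (mulF (mulF B v) A) = mulF (mulF B v) A := by
      apply ma_injective
      rw [ma_mul]
      have e1 : ma (mulF (mulF B v) A) = ma B * ma v * ma A := by rw [ma_mul, ma_mul]
      rw [e1]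
      calc ma B * ma v * ma A * (ma B * ma v * ma A) =
          ma B * ma v * (ma A * ma B * ma v) * ma A := by simp only [mul_assoc]
        _ = ma B * ma v * (ma f₁ * ma A) := by rw [hABv]; simp only [mul_assoc]
        _ = ma B * ma v * ma A := by rw [f₁A]
    have hf₁g : mulF f₁ (mulF (mulF B v) A) = mulF (mulF B v) A := by
      apply ma_injective
      rw [ma_mul, hg, ← mul_assoc, ← mul_assoc, f₁B]
    rcases hf₁.2.2 _ ⟨hgc, hgg⟩ with h | h
    · rw [hf₁g] at h
      exact h
    · exfalso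
      rw [hf₁g] at h
      apply hf₁.2.1
      apply ma_injective
      rw [ma_zero, ← f₁i, ← hABv]
      have e1 : ma (mulF (mulF B v) A) = ma B * ma v * ma A := by rw [ma_mul, ma_mul]
      rw [h, ma_zero] at e1
      calc ma A * ma B * ma v * (ma A * ma B * ma v) =
          ma A * (ma B * ma v * ma A) * ma B * ma v := by simp only [mul_assoc]
        _ = 0 := by rw [← e1]; simp

end fcu

end Pool.Agent.PP.H6
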