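import Pool.Agent.Helper6_PP.Nco
import Pool.Agent.Helper6_PP.Cmp

/-!
# Squad PP, module NCO: the statement
-/

open scoped BigOperators

set_option linter.unusedSectionVars false

noncomputable section

namespace Pool.Agent.PP.H6

open Pool.Agent.Helper51_AWC Pool.Agent.Helper79_WRA Pool.Agent.PP

variable {F G : Type} [Field F] [Group G]

theorem Good.conj {ℓ : ℕ} {N : Subgroup G} [hN : N.Normal] {b : G → F} (hb : IsCl b)
    {P : Subgroup G} (h : Good ℓ N b P) (g : G) : Good ℓ N b (conjS g P) := by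
  obtain ⟨h1, h2, x, hxN, hxP, hx⟩ := h
  refine ⟨h1.map _, ?_, g * x * g⁻¹, hN.conj_mem x hxN g, ?_, ?_⟩
  · rw [eq_bot_iff]
    intro y hy
    obtain ⟨hy1, hy2⟩ := Subgroup.mem_inf.1 hy
    rw [mem_conjS] at hy1
    have h3 : g⁻¹ * y * g ∈ P ⊓ N := by
      refine Subgroup.mem_inf.2 ⟨hy1, ?_⟩
      have := hN.conj_mem y hy2 g⁻¹
      rwa [inv_inv] at this
    rw [h2, Subgroup.mem_bot] at h3
    rw [Subgroup.mem_bot]
    have e : y = g * (g⁻¹ * y * g) * g⁻¹ := by group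
    rw [e, h3]
    group
  · rw [Subgroup.mem_centralizer_iff] at hxP ⊢
    intro y hy
    have h3 := hxP _ (mem_conjS.1 hy)
    have e1 : y * (g * x * g⁻¹) = g * (g⁻¹ * y * g * x) * g⁻¹ := by group
    have e2 : g * x * g⁻¹ * y = g * (x * (g⁻¹ * y * g)) * g⁻¹ := by group
    rw [e1, e2, h3]
  · rw [hb]
    exact hx

theorem goodSys (hcmp : CmpStmt) {ℓ : ℕ} (hF : GoodF ℓ F) [Finite G] {N : Subgroup G} [N.Normal]
    {b : G → F} (hNB : NB ℓ N b) : GoodSys ℓ (QuotientGroup.mk' N) (Good ℓ N b) := by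
  have hℓ : Fact ℓ.Prime := ⟨hF.prime⟩
  have hker : (QuotientGroup.mk' N).ker = N := QuotientGroup.ker_mk' N
  have hrel : ∀ T : Subgroup G, N ≤ T → IsPGroup ℓ (T.map (QuotientGroup.mk' N)) →
      ∃ k, N.relIndex T = ℓ ^ k := by
    intro T hT hp
    obtain ⟨k, hk⟩ := IsPGroup.iff_card.1 hp
    refine ⟨k, ?_⟩
    have h1 := card_map (QuotientGroup.mk' N) T
    rw [hker, inf_eq_right.2 hT, card_of_relIndex hT] at h1
    rw [← hk]
    exact Nat.eq_of_mul_eq_mul_right Nat.card_pos h1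
  have hsup : ∀ P : Subgroup G, (P ⊔ N).map (QuotientGroup.mk' N) =
      P.map (QuotientGroup.mk' N) := by
    intro P
    rw [Subgroup.map_sup, (Subgroup.map_eq_bot_iff N).2 (by rw [hker]), sup_bot_eq]
  refine ⟨QuotientGroup.mk'_surjective N, fun P h => h.1, fun P h => by rw [hker]; exact h.2.1,
    ?_, fun g P h => Good.conj hNB.2.1 h g, ?_, ?_⟩
  · rintro P R ⟨h1, h2, x, hxN, hxP, hx⟩ hR
    refine ⟨h1.to_le hR, ?_, x, hxN, Subgroup.centralizer_le hR hxP, hx⟩
    rw [eq_bot_iff, ← h2]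
    exact inf_le_inf_right N hR
  · intro T' hT'
    have hNT : N ≤ T'.comap (QuotientGroup.mk' N) := by
      intro x hx
      rw [Subgroup.mem_comap]
      have h1 : QuotientGroup.mk' N x = 1 := by
        rw [← MonoidHom.mem_ker, hker]
        exact hx
      rw [h1]
      exact one_mem _
    have hmap : (T'.comap (QuotientGroup.mk' N)).map (QuotientGroup.mk' N) = T' :=
      Subgroup.map_comap_eq_self_of_surjective (QuotientGroup.mk'_surjective N) T'
    obtain ⟨P, hP, hPT⟩ := (hcmp ℓ F hF G N (T'.comap (QuotientGroup.mk' N)) b hNB hNT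
      (hrel _ hNT (by rw [hmap]; exact hT'))).1
    refine ⟨P, hP, ?_⟩
    rw [← hsup P, hPT, hmap]
  · intro P P' hP hP' he
    have h1 : P ⊔ N = P' ⊔ N := by
      have h2 := congrArg (Subgroup.comap (QuotientGroup.mk' N)) he
      rw [Subgroup.comap_map_eq, Subgroup.comap_map_eq, hker] at h2
      exact h2
    obtain ⟨n, hn, hc⟩ := (hcmp ℓ F hF G N (P ⊔ N) b hNB le_sup_right
      (hrel _ le_sup_right (by rw [hsup]; exact hP.1.map _))).2 P P' hP hP' rfl h1.symm
    exact ⟨n, by rw [hker]; exact hn, hc.symm⟩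

theorem nco_stmt (hcmp : CmpStmt) : NcoStmt := by
  intro ℓ F _ hF G _ _ N M _ b hNB hM hNM
  have S := goodSys (ℓ := ℓ) (F := F) hcmp hF hNB
  have hker : (QuotientGroup.mk' N).ker = N := QuotientGroup.ker_mk' N
  refine ⟨?_, ?_⟩
  · intro c hc hn hg
    obtain ⟨h4, h5, h6⟩ := mem_chainsOn.1 hc
    have hG : GC ℓ (QuotientGroup.mk' N) (Good ℓ N b) c := ⟨⟨_, h5⟩, h6, hg⟩
    refine ⟨?_, (normal_imC S hG).2 hn, top_imC hG, card_imC S hG, stab_imC S hG,
      (map_centralizer S hg).symm⟩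
    rw [mem_chainsOn]
    refine ⟨?_, mem_imC.2 ⟨⊥, h5, Subgroup.map_bot _⟩, chain_imC h6⟩
    intro D' hD'
    obtain ⟨D, hD, rfl⟩ := mem_imC.1 hD'
    obtain ⟨h7, h8⟩ := mem_psubIn.1 (h4 hD)
    rw [mem_psubIn]
    exact ⟨Subgroup.map_mono h7, h8.map _⟩
  · intro w w' hw
    have h1 := nco S (M := M) (by rw [hker]; exact hNM) w w' hw
    rw [hker] at h1
    exact h1

end Pool.Agent.PP.H6
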