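import Pool.Agent.Helper98_PP.StmtsR2
import Pool.Agent.Helper46_PP.Blk

/-!
# Squad PP, modules FBK and FCU: slices of group ring elements of a central product
-/

open scoped BigOperators

set_option linter.unusedSectionVars false

noncomputable section

namespace Pool.Agent.PP.H6

open Pool.Agent.Helper51_AWC Pool.Agent.Helper79_WRA Pool.Agent.PP Pool.Agent.PP.H46

section nil

variable {F H : Type} [Field F] [Group H] [Finite H]

/-- nilpotent elements of the group ring, as functions -/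
def NilF (a : H → F) : Prop := IsNilpotent (ma a)

theorem nilF_iff {a : H → F} : NilF a ↔ ∃ k : ℕ, (mulF a)^[k] a = 0 := by
  constructor
  · rintro ⟨k, hk⟩
    refine ⟨k, ?_⟩
    apply ma_injective
    rw [ma_iterate, hk, zero_mul, ma_zero]
  · rintro ⟨k, hk⟩
    refine ⟨k + 1, ?_⟩
    have := congrArg ma hk
    rw [ma_iterate, ma_zero] at this
    rw [pow_succ, this]

/-- a nilpotent class function acts as zero in irreducible representations -/
theorem ev_nil {n : ℕ} {ρ : H →* Matrix (Fin n) (Fin n) F} (hρ : IsIrr ρ) {a : H → F}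
    (ha : IsCl a) (hn : NilF a) : ev ρ a = 0 := by
  have hpos := hρ.1
  obtain ⟨w, hw⟩ := schur hρ (ev ρ a) (by
    intro h
    rw [← ev_dl ρ h, ← ev_mulF, ← ev_mulF, H46.mulF_comm ha])
  obtain ⟨k, hk⟩ := hn
  have h1 : ev ρ a ^ k = 0 := by
    rw [ev_eq, ← map_pow, hk, map_zero]
  rw [hw, ← map_pow] at h1
  have h2 : w ^ k = 0 := by
    have h3 := congrFun (congrFun h1 ⟨0, hpos⟩) ⟨0, hpos⟩
    simpa [Matrix.scalar_apply] using h3
  have h4 : w = 0 := IsNilpotent.eq_zero ⟨k, h2⟩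
  rw [hw, h4, map_zero]

theorem cl_ma {a : H → F} (ha : IsCl a) (x : MonoidAlgebra F H) : ma a * x = x * ma a :=
  comm_ma ha x

/-- an irreducible representation of a block -/
theorem exists_rep (hibn : IbnStmt) (heig : EigStmt) {ℓ : ℕ} (hF : GoodF ℓ F) {b : H → F}
    (hb : IsIdem b) (h0 : b ≠ 0) :
    ∃ (n : ℕ) (ρ : H →* Matrix (Fin n) (Fin n) F), IsIrr ρ ∧ ev ρ b = 1 := by
  by_contra hcon
  push Not at hcon
  obtain ⟨k, hk⟩ := hibn ℓ F hF H b (by
    intro n ρ hρ
    obtain ⟨w, hw, _, h01⟩ := heig F H n ρ hρ b hb.1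
    rcases h01 hb with rfl | rfl
    · rw [hw, map_zero]
    · exfalso
      apply hcon n ρ hρ
      rw [hw, map_one])
  have h1 : ∀ k : ℕ, (mulF b)^[k] b = b := by
    intro k
    induction k with
    | zero => rfl
    | succ k ih => rw [Function.iterate_succ', Function.comp, ih, hb.2]
  rw [h1] at hk
  exact h0 hk

/-- the centre of a block is local -/
theorem loc (hibn : IbnStmt) (heig : EigStmt) {ℓ : ℕ} (hF : GoodF ℓ F) {b z : H → F}
    (hb : IsBlk b) (hz : IsCl z) : ∃ c : F, NilF (mulF z b - c • b) := by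
  obtain ⟨⟨hbc, hbb⟩, hb0, hprim⟩ := hb
  obtain ⟨n, ρ, hρ, hρb⟩ := exists_rep hibn heig hF ⟨hbc, hbb⟩ hb0
  obtain ⟨c, hc, _, _⟩ := heig F H n ρ hρ z hz
  refine ⟨c, ?_⟩
  have hbm : ma b * ma b = ma b := by rw [← ma_mul, hbb]
  set w : H → F := mulF z b - c • b with hw
  have hwm : ma w = ma z * ma b - c • ma b := by rw [hw, ma_sub, ma_mul, ma_smul]
  have hwb : ma w * ma b = ma w := by
    rw [hwm, sub_mul, mul_assoc, smul_mul_assoc, hbm]
  have hwc : ma w ∈ Subalgebra.center F (MonoidAlgebra F H) := by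
    rw [hwm]
    have h1 := (isCl_iff z).1 hz
    have h2 := (isCl_iff b).1 hbc
    exact Subalgebra.sub_mem _ (Subalgebra.mul_mem _ h1 h2) (Subalgebra.smul_mem _ h2 c)
  have hρw : repA ρ (ma w) = 0 := by
    rw [hwm, map_sub, map_mul, map_smul, ← ev_eq, ← ev_eq, hρb, hc, mul_one]
    rw [sub_eq_zero]
    ext i j
    simp [Matrix.scalar_apply, Matrix.diagonal_apply, Matrix.one_apply]
  have hart : IsArtinianRing (Subalgebra.center F (MonoidAlgebra F H)) :=
    IsArtinianRing.of_finite F _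
  obtain ⟨m, y, hy⟩ := IsArtinian.exists_pow_succ_smul_dvd
    (⟨ma w, hwc⟩ : Subalgebra.center F (MonoidAlgebra F H))
    (1 : Subalgebra.center F (MonoidAlgebra F H))
  set x : Subalgebra.center F (MonoidAlgebra F H) := ⟨ma w, hwc⟩ with hx
  rw [smul_eq_mul, smul_eq_mul, mul_one] at hy
  have h1 : ∀ k : ℕ, x ^ (m + 1) = x ^ (m + 1) * (x * y) ^ k := by
    intro k
    induction k with
    | zero => rw [pow_zero, mul_one]
    | succ k ih =>
      have h2 : x ^ (m + 1) * (x * y) = x ^ (m + 1) := by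
        calc x ^ (m + 1) * (x * y) = x * (x ^ (m + 1) * y) := by ring
          _ = x * x ^ m := by rw [hy]
          _ = x ^ (m + 1) := by ring
      calc x ^ (m + 1) = x ^ (m + 1) * (x * y) := h2.symm
        _ = (x ^ (m + 1) * (x * y) ^ k) * (x * y) := by rw [← ih]
        _ = x ^ (m + 1) * (x * y) ^ (k + 1) := by ring
  have h2 := h1 (m + 1)
  set e : Subalgebra.center F (MonoidAlgebra F H) := (x * y) ^ (m + 1) with he
  have hee : e * e = e := by
    rw [he]
    calc (x * y) ^ (m + 1) * (x * y) ^ (m + 1) =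
        (x ^ (m + 1) * (x * y) ^ (m + 1)) * y ^ (m + 1) := by ring
      _ = x ^ (m + 1) * y ^ (m + 1) := by rw [← h2]
      _ = (x * y) ^ (m + 1) := by ring
  obtain ⟨g, hg⟩ := ma_surjective (e : MonoidAlgebra F H)
  have hgi : IsIdem g := by
    rw [isIdem_iff, hg]
    refine ⟨e.2, ?_⟩
    change (e : MonoidAlgebra F H) * e = e
    exact congrArg Subtype.val hee
  have hxv : (x : MonoidAlgebra F H) = ma w := rfl
  have hev : (e : MonoidAlgebra F H) = ma w * ((x ^ m * y ^ (m + 1) :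
      Subalgebra.center F (MonoidAlgebra F H)) : MonoidAlgebra F H) := by
    rw [← hxv, ← Subalgebra.coe_mul, he]
    congr 1
    ring
  have heb : ma b * (e : MonoidAlgebra F H) = e := by
    have h3 : ma b * ma w = ma w := by rw [cl_ma hbc, hwb]
    rw [hev, ← mul_assoc, h3]
  rcases hprim g hgi with h | h
  · exfalso
    have h3 : (e : MonoidAlgebra F H) = ma b := by
      rw [← heb, ← hg, ← ma_mul, h]
    have h4 : repA ρ (e : MonoidAlgebra F H) = 0 := by
      rw [hev, map_mul, hρw, zero_mul]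
    rw [h3, ← ev_eq, hρb] at h4
    have hpos := hρ.1
    have h5 := congrFun (congrFun h4 ⟨0, hpos⟩) ⟨0, hpos⟩
    rw [Matrix.one_apply_eq, Matrix.zero_apply] at h5
    exact one_ne_zero h5
  · have h3 : (e : MonoidAlgebra F H) = 0 := by
      rw [← heb, ← hg, ← ma_mul, h, ma_zero]
    have h4 : e = 0 := Subtype.ext h3
    refine ⟨m + 1, ?_⟩
    have h5 : x ^ (m + 1) = 0 := by rw [h2, h4, mul_zero]
    have h6 := congrArg (Subtype.val) h5
    rw [← hxv]
    exact h6

end nil

section slice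

variable {F Y : Type} [Field F] [Group Y] [Finite Y]

/-- the slice of `a` at the coset `K p` -/
def sl (K : Subgroup Y) (a : Y → F) (p : Y) : K → F := fun k => a (k * p)

theorem mulF_dl (a : Y → F) (p y : Y) : mulF a (dl F p) y = a (y * p⁻¹) := by
  classical
  have := Fintype.ofFinite Y
  rw [mulF, finsum_eq_sum_of_fintype, Finset.sum_eq_single (y * p⁻¹)]
  · have e : (y * p⁻¹)⁻¹ * y = p := by group
    rw [e]
    unfold dl
    rw [if_pos rfl, mul_one]
  · intro t _ ht
    unfold dl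
    rw [if_neg, mul_zero]
    intro h
    apply ht
    rw [← h]
    group
  · intro h
    exact absurd (Finset.mem_univ _) h

theorem sum_apply' {ι : Type*} (s : Finset ι) (f : ι → Y → F) (y : Y) :
    (∑ i ∈ s, f i) y = ∑ i ∈ s, f i y := Finset.sum_apply y s f

/-- the decomposition into slices -/
theorem slice_decomp {K K' : Subgroup Y} (hc : ∀ x ∈ K, ∀ y ∈ K', x * y = y * x)
    (hs : K ⊔ K' = ⊤) [Fintype K'] (a : Y → F) :
    (Nat.card (K ⊓ K' : Subgroup Y) : F) • a =
      ∑ p : K', mulF (ext0 K (sl K a p)) (dl F (p : Y)) := by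
  classical
  funext y
  rw [sum_apply', Pi.smul_apply, smul_eq_mul]
  have hy : y ∈ K ⊔ K' := by rw [hs]; exact Subgroup.mem_top y
  have hn : ∀ y ∈ K ⊔ K', ∃ k ∈ K, ∃ q ∈ K', k * q = y := by
    intro y hy
    have : K.Normal := by
      refine ⟨fun n hn g => ?_⟩
      have hg : g ∈ K ⊔ K' := by rw [hs]; exact Subgroup.mem_top g
      have : ∀ g ∈ K ⊔ K', g * n * g⁻¹ ∈ K := by
        intro g hg
        have hle : K ⊔ K' ≤ Subgroup.normalizer (K : Set Y) := by
          apply sup_le Subgroup.le_normalizer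
          intro q hq
          rw [Subgroup.mem_normalizer_iff]
          intro k
          constructor
          · intro hk
            have e : q * k * q⁻¹ = k := by rw [← hc k hk q hq]; group
            rw [e]; exact hk
          · intro hk
            have e := hc _ hk q hq
            have e2 : q * k * q⁻¹ = k := by
              have e3 : q * k = q * (q * k * q⁻¹) := by
                rw [← e]; group
              exact (mul_left_cancel e3).symm
            rwa [e2] at hk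
        exact (Subgroup.mem_normalizer_iff.1 (hle hg) n).1 hn
      exact this g hg
    obtain ⟨k, hk, q, hq, h⟩ := Subgroup.mem_sup_of_normal_left.1 hy
    exact ⟨k, hk, q, hq, h⟩
  obtain ⟨k, hk, q, hq, rfl⟩ := hn y hy
  have h1 : ∀ p : K', mulF (ext0 K (sl K a p)) (dl F (p : Y)) (k * q) =
      if (k * q * (p : Y)⁻¹) ∈ K then a (k * q) else 0 := by
    intro p
    rw [mulF_dl]
    split_ifs with h
    · rw [ext0_of_mem _ h]
      change a (k * q * (p : Y)⁻¹ * p) = _
      congr 1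
      group
    · rw [ext0_of_not_mem _ h]
  rw [Finset.sum_congr rfl fun p _ => h1 p, ← Finset.sum_filter, Finset.sum_const, nsmul_eq_mul]
  congr 2
  have := Fintype.ofFinite ↥(K ⊓ K')
  rw [Nat.card_eq_fintype_card, ← Finset.card_univ]
  refine Finset.card_bij (fun z _ => (⟨(z : Y)⁻¹ * q, K'.mul_mem (K'.inv_mem z.2.2) hq⟩ : K'))
    ?_ ?_ ?_
  · intro z _
    rw [Finset.mem_filter]
    refine ⟨Finset.mem_univ _, ?_⟩
    change k * q * ((z : Y)⁻¹ * q)⁻¹ ∈ K
    have e : k * q * ((z : Y)⁻¹ * q)⁻¹ = k * z := by group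
    rw [e]
    exact K.mul_mem hk z.2.1
  · intro z _ z' _ h
    have h2 := congrArg Subtype.val h
    change (z : Y)⁻¹ * q = (z' : Y)⁻¹ * q at h2
    apply Subtype.ext
    exact inv_injective (mul_right_cancel h2)
  · intro p hp
    rw [Finset.mem_filter] at hp
    have h3 : q * (p : Y)⁻¹ ∈ K := by
      have := K.mul_mem (K.inv_mem hk) hp.2
      have e : k⁻¹ * (k * q * (p : Y)⁻¹) = q * (p : Y)⁻¹ := by group
      rwa [e] at this
    refine ⟨⟨q * (p : Y)⁻¹, Subgroup.mem_inf.2 ⟨h3, K'.mul_mem hq (K'.inv_mem p.2)⟩⟩,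
      Finset.mem_univ _, ?_⟩
    apply Subtype.ext
    change (q * (p : Y)⁻¹)⁻¹ * q = p
    group

theorem ev_sum {n : ℕ} (ρ : Y →* Matrix (Fin n) (Fin n) F) {ι : Type*} (s : Finset ι)
    (f : ι → Y → F) : ev ρ (∑ i ∈ s, f i) = ∑ i ∈ s, ev ρ (f i) := by
  rw [ev_eq, ma_sum, map_sum]
  exact Finset.sum_congr rfl fun i _ => (ev_eq ρ (f i)).symm

theorem ev_slice {K K' : Subgroup Y} (hc : ∀ x ∈ K, ∀ y ∈ K', x * y = y * x)
    (hs : K ⊔ K' = ⊤) [Fintype K'] {n : ℕ} (ρ : Y →* Matrix (Fin n) (Fin n) F) (a : Y → F) :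
    (Nat.card (K ⊓ K' : Subgroup Y) : F) • ev ρ a =
      ∑ p : K', ev ρ (ext0 K (sl K a p)) * ρ p := by
  rw [← ev_smul, slice_decomp hc hs, ev_sum]
  refine Finset.sum_congr rfl fun p _ => ?_
  rw [ev_mulF, ev_dl]

theorem ext0_smul' {K : Subgroup Y} (c : F) (g : K → F) : ext0 K (c • g) = c • ext0 K g := by
  funext x
  by_cases h : x ∈ K
  · rw [ext0_of_mem _ h, Pi.smul_apply, Pi.smul_apply, ext0_of_mem _ h]
  · rw [ext0_of_not_mem _ h, Pi.smul_apply, ext0_of_not_mem _ h, smul_zero]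

theorem ext0_sub' {K : Subgroup Y} (g h : K → F) : ext0 K (g - h) = ext0 K g - ext0 K h := by
  funext x
  by_cases hx : x ∈ K
  · rw [ext0_of_mem _ hx, Pi.sub_apply, Pi.sub_apply, ext0_of_mem _ hx, ext0_of_mem _ hx]
  · rw [ext0_of_not_mem _ hx, Pi.sub_apply, ext0_of_not_mem _ hx, ext0_of_not_mem _ hx, sub_zero]

theorem ext0_zero' {K : Subgroup Y} : ext0 K (0 : K → F) = 0 := by
  funext x
  by_cases hx : x ∈ K
  · rw [ext0_of_mem _ hx]; rfl
  · rw [ext0_of_not_mem _ hx]; rfl

theorem ext0_iter {K : Subgroup Y} (g h : K → F) (k : ℕ) :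
    ext0 K ((mulF g)^[k] h) = (mulF (ext0 K g))^[k] (ext0 K h) := by
  induction k with
  | zero => rfl
  | succ k ih =>
    rw [Function.iterate_succ', Function.comp, ext0_mul, ih, Function.iterate_succ', Function.comp]

theorem ext0_nil {K : Subgroup Y} {g : K → F} (h : NilF g) : NilF (ext0 K g) := by
  rw [nilF_iff] at h ⊢
  obtain ⟨k, hk⟩ := h
  exact ⟨k, by rw [← ext0_iter, hk, ext0_zero']⟩

theorem ext0_inj {K : Subgroup Y} {g h : K → F} (e : ext0 K g = ext0 K h) : g = h := by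
  rw [← restr_ext0 g, e, restr_ext0]

/-- class functions of a factor are class functions -/
theorem ext0_cl {K K' : Subgroup Y} (hc : ∀ x ∈ K, ∀ y ∈ K', x * y = y * x)
    (hs : K ⊔ K' = ⊤) {g : K → F} (hg : IsCl g) : IsCl (ext0 K g) := by
  have h1 : stabF (ext0 K g) = ⊤ := by
    rw [eq_top_iff, ← hs]
    apply sup_le
    · intro k hk x
      by_cases hx : x ∈ K
      · have h2 : k * x * k⁻¹ ∈ K := K.mul_mem (K.mul_mem hk hx) (K.inv_mem hk)
        rw [ext0_of_mem _ hx, ext0_of_mem _ h2]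
        exact hg ⟨x, hx⟩ ⟨k, hk⟩
      · have h2 : k * x * k⁻¹ ∉ K := by
          intro h
          apply hx
          have := K.mul_mem (K.mul_mem (K.inv_mem hk) h) hk
          have e : k⁻¹ * (k * x * k⁻¹) * k = x := by group
          rwa [e] at this
        rw [ext0_of_not_mem _ hx, ext0_of_not_mem _ h2]
    · intro q hq x
      by_cases hx : x ∈ K
      · have e : q * x * q⁻¹ = x := by rw [← hc x hx q hq]; group
        rw [e]
      · have h2 : q * x * q⁻¹ ∉ K := by
          intro h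
          apply hx
          have e := hc _ h q hq
          have e2 : q * x * q⁻¹ = x := by
            have e3 : q * x = q * (q * x * q⁻¹) := by
              rw [← e]; group
            exact (mul_left_cancel e3).symm
          rwa [e2] at h
        rw [ext0_of_not_mem _ hx, ext0_of_not_mem _ h2]
  intro x y
  have : y ∈ stabF (ext0 K g) := by rw [h1]; exact Subgroup.mem_top y
  exact this x

theorem inter_le_center {K K' : Subgroup Y} (hc : ∀ x ∈ K, ∀ y ∈ K', x * y = y * x)
    (hs : K ⊔ K' = ⊤) : K ⊓ K' ≤ Subgroup.center Y := by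
  intro z hz
  rw [Subgroup.mem_center_iff]
  have h1 : K ⊔ K' ≤ Subgroup.centralizer ({z} : Set Y) := by
    apply sup_le
    · intro k hk
      rw [Subgroup.mem_centralizer_singleton_iff]
      exact hc k hk z hz.2
    · intro q hq
      rw [Subgroup.mem_centralizer_singleton_iff]
      exact (hc z hz.1 q hq).symm
  intro g
  have h2 : g ∈ Subgroup.centralizer ({z} : Set Y) := h1 (by rw [hs]; exact Subgroup.mem_top g)
  rw [Subgroup.mem_centralizer_singleton_iff] at h2
  exact h2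

theorem card_inter_ne {ℓ : ℕ} (hF : GoodF ℓ F) {K K' : Subgroup Y}
    (hc : ∀ x ∈ K, ∀ y ∈ K', x * y = y * x) (hs : K ⊔ K' = ⊤)
    (hz : ¬ ℓ ∣ Nat.card (Subgroup.center Y)) : (Nat.card (K ⊓ K' : Subgroup Y) : F) ≠ 0 := by
  have hch := hF.char
  rw [Ne, CharP.cast_eq_zero_iff F ℓ]
  intro h
  exact hz (h.trans (Subgroup.card_dvd_of_le (inter_le_center hc hs)))

/-- The scalar by which a class function acts in all representations over a block. -/
theorem scal {ℓ : ℕ} (hF : GoodF ℓ F) (hibn : IbnStmt) (heig : EigStmt) {K K' : Subgroup Y}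
    (hc : ∀ x ∈ K, ∀ y ∈ K', x * y = y * x) (hs : K ⊔ K' = ⊤) {b z : K → F} (hb : IsBlk b)
    (hz : IsCl z) : ∃ c : F, ∀ (n : ℕ) (ρ : Y →* Matrix (Fin n) (Fin n) F), IsIrr ρ →
      ev ρ (ext0 K b) = 1 → ev ρ (ext0 K z) = c • 1 := by
  obtain ⟨c, hcn⟩ := loc hibn heig hF hb hz
  refine ⟨c, fun n ρ hρ h1 => ?_⟩
  have hcl : IsCl (mulF z b - c • b) := by
    have h2 : IsCl (mulF z b) := by
      rw [isCl_iff, ma_mul]
      exact Subalgebra.mul_mem _ ((isCl_iff z).1 hz) ((isCl_iff b).1 hb.1.1)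
    exact (cfs F K).sub_mem h2 ((cfs F K).smul_mem c hb.1.1)
  have h2 := ev_nil hρ (ext0_cl hc hs hcl) (ext0_nil hcn)
  rw [ext0_sub', ext0_mul, ext0_smul'] at h2
  have h3 : ev ρ (mulF (ext0 K z) (ext0 K b) - c • ext0 K b) =
      ev ρ (ext0 K z) * ev ρ (ext0 K b) - c • ev ρ (ext0 K b) := by
    rw [ev_eq, ma_sub, map_sub, ← ev_eq, ← ev_eq, ev_mulF, ev_smul]
  rw [h3, h1, mul_one, sub_eq_zero] at h2
  exact h2

theorem sl_cl {K K' : Subgroup Y} (hc : ∀ x ∈ K, ∀ y ∈ K', x * y = y * x) {a : Y → F}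
    (ha : IsCl a) {p : Y} (hp : p ∈ K') : IsCl (sl K a p) := by
  intro x y
  change a ((y * x * y⁻¹ : K) * p) = a (x * p)
  rw [← ha ((x : Y) * p) y]
  congr 1
  rw [Subgroup.coe_mul, Subgroup.coe_mul, Subgroup.coe_inv]
  have h1 := hc _ (K.inv_mem y.2) p hp
  calc (y : Y) * x * (y : Y)⁻¹ * p = y * x * ((y : Y)⁻¹ * p) := by group
    _ = y * x * (p * (y : Y)⁻¹) := by rw [h1]
    _ = y * (x * p) * (y : Y)⁻¹ := by group

/-- FBK -/
theorem fbk (hibn : IbnStmt) (heig : EigStmt) : FbkStmt := by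
  intro ℓ F _ hF Y _ _ K K' hc hs hz f hf
  have := Fintype.ofFinite K'
  have hc' : ∀ x ∈ K', ∀ y ∈ K, x * y = y * x := fun x hx y hy => (hc y hy x hx).symm
  have hs' : K' ⊔ K = ⊤ := by rw [sup_comm]; exact hs
  refine ⟨?_, ?_, ?_⟩
  · obtain ⟨b, hb1, hb2, hb3⟩ := exists_blk hf.2.1 K
    refine ⟨fun t : K => b t, hb2, ?_⟩
    have hcl : IsCl b := by
      have h1 := ext0_cl hc hs hb2.1.1
      rwa [ext0_restr hb1] at h1
    rw [ext0_restr hb1, H46.mulF_comm hcl]
    exact mul_stable hb1 hb2 hcl hf hb3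
  · rintro f₁ f₂ ⟨h1, h1'⟩ ⟨h2, h2'⟩
    have h3 : mulF f₁ f₂ ≠ 0 := by
      intro h0
      have h4 : mulF (ext0 K f₁) (mulF (ext0 K f₂) f) = f := by rw [h2', h1']
      apply hf.2.1
      rw [← h4, ← mulF_assoc, ← ext0_mul, h0, ext0_zero']
      apply ma_injective
      rw [ma_mul, ma_zero, zero_mul]
    have h4 := (h1.2.2 f₂ h2.1).resolve_right h3
    have h5 : mulF f₂ f₁ ≠ 0 := by rw [← H46.mulF_comm h1.1.1]; exact h3
    have h6 := (h2.2.2 f₁ h1.1).resolve_right h5
    rw [← h4, H46.mulF_comm h1.1.1, h6]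
  · rintro b₁ b₂ ⟨h1, h1'⟩ ⟨h2, h2'⟩
    have i1 : IsIdem (ext0 K b₁) := by
      refine ⟨ext0_cl hc hs h1.1.1, ?_⟩
      rw [← ext0_mul, h1.1.2]
    have i2 : IsIdem (ext0 K' b₂) := by
      refine ⟨ext0_cl hc' hs' h2.1.1, ?_⟩
      rw [← ext0_mul, h2.1.2]
    set g := mulF (ext0 K b₁) (ext0 K' b₂) with hg
    have ig : IsIdem g := isIdem_mul i1 i2
    have hgf : mulF g f = f := by rw [hg, mulF_assoc, h2', h1']
    have hcard := card_inter_ne hF hc hs hz
    -- the scalars
    choose c hcs using fun z : {z : K → F // IsCl z} => scal hF hibn heig hc hs h1 z.2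
    set h' : K' → F := fun p => c ⟨sl K f p, sl_cl hc hf.1.1 p.2⟩ with hh'
    have hh'c : IsCl h' := by
      intro x y
      rw [hh']
      change c ⟨sl K f ((y * x * y⁻¹ : K') : Y), _⟩ = c ⟨sl K f (x : Y), _⟩
      congr 1
      apply Subtype.ext
      funext k
      change f (k * ((y * x * y⁻¹ : K') : Y)) = f (k * x)
      rw [← hf.1.1 (k * (x : Y)) y]
      congr 1
      rw [Subgroup.coe_mul, Subgroup.coe_mul, Subgroup.coe_inv]
      have h3 := hc k k.2 y y.2
      calc (k : Y) * ((y : Y) * x * (y : Y)⁻¹) = (k * y) * x * (y : Y)⁻¹ := by group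
        _ = (y * k) * x * (y : Y)⁻¹ := by rw [h3]
        _ = y * (k * x) * (y : Y)⁻¹ := by group
    obtain ⟨d, hd⟩ := scal hF hibn heig hc' hs' h2 hh'c
    -- the two factors act as the identity
    have hgsplit : ∀ (n : ℕ) (ρ : Y →* Matrix (Fin n) (Fin n) F), IsIrr ρ → ev ρ g = 1 →
        ev ρ (ext0 K b₁) = 1 ∧ ev ρ (ext0 K' b₂) = 1 := by
      intro n ρ hρ hρg
      obtain ⟨w, hw, _, hw'⟩ := heig F Y n ρ hρ _ i1.1
      obtain ⟨v, hv, _, hv'⟩ := heig F Y n ρ hρ _ i2.1
      rw [hg, ev_mulF] at hρg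
      have hne : (1 : Matrix (Fin n) (Fin n) F) ≠ 0 := by
        intro h0
        have := congrFun (congrFun h0 ⟨0, hρ.1⟩) ⟨0, hρ.1⟩
        rw [Matrix.one_apply_eq, Matrix.zero_apply] at this
        exact one_ne_zero this
      constructor
      · rcases hw' i1 with rfl | rfl
        · rw [hw, map_zero, zero_mul] at hρg
          exact absurd hρg.symm hne
        · rw [hw, map_one]
      · rcases hv' i2 with rfl | rfl
        · rw [hv, map_zero, mul_zero] at hρg
          exact absurd hρg.symm hne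
        · rw [hv, map_one]
    have hconst : ∀ (n : ℕ) (ρ : Y →* Matrix (Fin n) (Fin n) F), IsIrr ρ → ev ρ g = 1 →
        (Nat.card (K ⊓ K' : Subgroup Y) : F) • ev ρ f = d • 1 := by
      intro n ρ hρ hρg
      obtain ⟨e1, e2⟩ := hgsplit n ρ hρ hρg
      rw [ev_slice hc hs, ← hd n ρ hρ e2]
      have h3 : ∀ p : K', ev ρ (ext0 K (sl K f p)) = h' p • 1 := by
        intro p
        exact hcs ⟨sl K f p, sl_cl hc hf.1.1 p.2⟩ n ρ hρ e1
      rw [Finset.sum_congr rfl fun p _ => by rw [h3 p]]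
      have h4 : ev ρ (ext0 K' h') = ∑ p : K', h' p • ρ p := by
        classical
        have := Fintype.ofFinite Y
        rw [ev, finsum_eq_sum_of_fintype]
        have e0 : ∑ t : Y, ext0 K' h' t • ρ t =
            ∑ t ∈ Finset.univ.filter (fun t : Y => t ∈ K'), ext0 K' h' t • ρ t := by
          symm
          apply Finset.sum_subset (Finset.filter_subset _ _)
          intro t _ ht
          rw [Finset.mem_filter, not_and] at ht
          rw [ext0_of_not_mem _ (ht (Finset.mem_univ _)), zero_smul]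
        have e1 : ∑ t ∈ Finset.univ.filter (fun t : Y => t ∈ K'), ext0 K' h' t • ρ t =
            ∑ t : K', ext0 K' h' t • ρ t := by
          apply Finset.sum_subtype
          intro t
          rw [Finset.mem_filter]
          exact ⟨fun h => h.2, fun h => ⟨Finset.mem_univ _, h⟩⟩
        rw [e0, e1]
        refine Finset.sum_congr rfl fun t _ => ?_
        rw [ext0_of_mem _ t.2]
      rw [h4]
      refine Finset.sum_congr rfl fun p _ => ?_
      rw [smul_mul_assoc, one_mul]
    -- the representation of `f`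
    obtain ⟨n₀, ρ₀, hρ₀, hρ₀f⟩ := exists_rep hibn heig hF hf.1 hf.2.1
    have hρ₀g : ev ρ₀ g = 1 := by
      have h3 := congrArg (ev ρ₀) hgf
      rw [ev_mulF, hρ₀f, mul_one] at h3
      exact h3
    have hd0 : d = (Nat.card (K ⊓ K' : Subgroup Y) : F) := by
      have h3 := hconst n₀ ρ₀ hρ₀ hρ₀g
      rw [hρ₀f] at h3
      have h4 := congrFun (congrFun h3 ⟨0, hρ₀.1⟩) ⟨0, hρ₀.1⟩
      rw [Matrix.smul_apply, Matrix.smul_apply, Matrix.one_apply_eq, smul_eq_mul, smul_eq_mul,
        mul_one, mul_one] at h4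
      exact h4.symm
    have hsub := isIdem_sub ig hf.1 hgf
    have hzero : ∀ (n : ℕ) (ρ : Y →* Matrix (Fin n) (Fin n) F), IsIrr ρ → ev ρ (g - f) = 0 := by
      intro n ρ hρ
      have h3 : ev ρ (g - f) = ev ρ g - ev ρ f := by
        rw [ev_eq, ma_sub, map_sub, ← ev_eq, ← ev_eq]
      rw [h3, sub_eq_zero]
      obtain ⟨w, hw, _, hw'⟩ := heig F Y n ρ hρ _ ig.1
      rcases hw' ig with rfl | rfl
      · have h4 := congrArg (ev ρ) hgf
        rw [ev_mulF, hw, map_zero, zero_mul] at h4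
        rw [hw, map_zero, ← h4]
      · rw [map_one] at hw
        have h4 := hconst n ρ hρ hw
        rw [hd0] at h4
        rw [hw]
        exact (smul_right_injective _ hcard h4).symm
    obtain ⟨k, hk⟩ := hibn ℓ F hF Y (g - f) hzero
    have h3 : ∀ k : ℕ, (mulF (g - f))^[k] (g - f) = g - f := by
      intro k
      induction k with
      | zero => rfl
      | succ k ih => rw [Function.iterate_succ', Function.comp, ih, hsub.1.2]
    rw [h3] at hk
    exact sub_eq_zero.1 hk

end slice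

end Pool.Agent.PP.H6
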