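import Pool.Agent.Helper94_PP.Nch

/-!
# Squad PP, module NCO: chains with a good top and chains of the quotient
-/

open scoped BigOperators

set_option linter.unusedSectionVars false

noncomputable section

namespace Pool.Agent.PP.H6

open Pool.Agent.Helper51_AWC Pool.Agent.Helper79_WRA Pool.Agent.PP Pool.Agent.PP.H94

variable {G G' : Type} [Group G] [Group G']

/-- Data for NCO: the good `ℓ`-subgroups of `G` with respect to the kernel of `q : G → G'`. -/
structure GoodSys (ℓ : ℕ) (q : G →* G') (good : Subgroup G → Prop) : Prop where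
  surj : Function.Surjective q
  pg : ∀ P, good P → IsPGroup ℓ P
  dis : ∀ P, good P → P ⊓ q.ker = ⊥
  sub : ∀ P R, good P → R ≤ P → good R
  cnj : ∀ g P, good P → good (conjS g P)
  ex : ∀ T : Subgroup G', IsPGroup ℓ T → ∃ P, good P ∧ P.map q = T
  uniq : ∀ P P', good P → good P' → P.map q = P'.map q → ∃ n ∈ q.ker, conjS n P = P'

theorem map_conjS (q : G →* G') (g : G) (D : Subgroup G) :
    (conjS g D).map q = conjS (q g) (D.map q) := by
  rw [conjS, conjS, Subgroup.map_map, Subgroup.map_map]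
  congr 1
  ext x
  simp

/-- injectivity on the subgroups of `P` -/
theorem map_le_iff {q : G →* G'} {P D D' : Subgroup G} (h : P ⊓ q.ker = ⊥) (hD : D ≤ P)
    (hD' : D' ≤ P) : D.map q ≤ D'.map q ↔ D ≤ D' := by
  constructor
  · intro hm x hx
    obtain ⟨y, hy, hxy⟩ := hm ⟨x, hx, rfl⟩
    have h1 : y⁻¹ * x ∈ P ⊓ q.ker := by
      refine Subgroup.mem_inf.2 ⟨mul_mem (inv_mem (hD' hy)) (hD hx), ?_⟩
      rw [MonoidHom.mem_ker, map_mul, map_inv, hxy, inv_mul_cancel]
    rw [h, Subgroup.mem_bot, inv_mul_eq_one] at h1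
    rw [← h1]
    exact hy
  · exact fun h => Subgroup.map_mono h

theorem map_inj {q : G →* G'} {P D D' : Subgroup G} (h : P ⊓ q.ker = ⊥) (hD : D ≤ P)
    (hD' : D' ≤ P) (e : D.map q = D'.map q) : D = D' :=
  le_antisymm ((map_le_iff h hD hD').1 e.le) ((map_le_iff h hD' hD).1 e.ge)

/-- an element of the kernel which normalises a complement centralises it -/
theorem norm_cent {q : G →* G'} {P : Subgroup G} (h : P ⊓ q.ker = ⊥) {n : G} (hn : n ∈ q.ker)
    (hc : conjS n P = P) : n ∈ Subgroup.centralizer (P : Set G) := by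
  rw [Subgroup.mem_centralizer_iff]
  intro x hx
  have h1 : n * x * n⁻¹ ∈ P := by
    rw [← hc, mem_conjS]
    have e : n⁻¹ * (n * x * n⁻¹) * n = x := by group
    rw [e]
    exact hx
  have h2 : n * x * n⁻¹ * x⁻¹ ∈ P ⊓ q.ker := by
    refine Subgroup.mem_inf.2 ⟨mul_mem h1 (inv_mem hx), ?_⟩
    rw [MonoidHom.mem_ker] at hn ⊢
    rw [map_mul, map_mul, map_mul, hn, one_mul, map_inv, hn, inv_one, mul_one, ← map_mul,
      mul_inv_cancel, map_one]
  rw [h, Subgroup.mem_bot] at h2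
  have h3 : n * x * n⁻¹ = x := mul_inv_eq_one.1 h2
  rw [mul_inv_eq_iff_eq_mul] at h3
  exact h3.symm

theorem cent_conjS {P D : Subgroup G} (hD : D ≤ P) {n : G}
    (hn : n ∈ Subgroup.centralizer (P : Set G)) : conjS n D = D := by
  rw [← mem_normalizer_iff_conjS, Subgroup.mem_normalizer_iff]
  intro x
  rw [Subgroup.mem_centralizer_iff] at hn
  constructor
  · intro hx
    have := hn x (hD hx)
    rw [← this]
    simpa using hx
  · intro hx
    have := hn _ (hD hx)
    have e : n * x * n⁻¹ = x := by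
      have h1 : n * x * n⁻¹ * n = n * x := by group
      rw [h1] at this
      have h2 : n * x = n * (n * x * n⁻¹) := this
      exact (mul_left_cancel h2).symm
    rwa [e] at hx

variable {ℓ : ℕ} {q : G →* G'} {good : Subgroup G → Prop}

/-- lifting of normalising elements -/
theorem lift_norm (S : GoodSys ℓ q good) {P : Subgroup G} (hP : good P) {g' : G'}
    (h : conjS g' (P.map q) = P.map q) : ∃ g, q g = g' ∧ conjS g P = P := by
  obtain ⟨g, rfl⟩ := S.surj g'
  have h1 : (conjS g P).map q = P.map q := by rw [map_conjS, h]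
  obtain ⟨n, hn, hc⟩ := S.uniq _ _ (S.cnj g P hP) hP h1
  refine ⟨n * g, ?_, ?_⟩
  · rw [map_mul, MonoidHom.mem_ker.1 hn, one_mul]
  · rw [← conjS_conjS, hc]

theorem fix_of_map {P D : Subgroup G} (hd : P ⊓ q.ker = ⊥) (hD : D ≤ P) {g : G}
    (hg : conjS g P = P) (h : conjS (q g) (D.map q) = D.map q) : conjS g D = D := by
  refine map_inj hd ?_ hD ?_
  · rw [← hg]
    exact conjS_mono.2 hD
  · rw [map_conjS, h]

/-- the centraliser of the image of a good subgroup -/
theorem map_centralizer (S : GoodSys ℓ q good) {P : Subgroup G} (hP : good P) :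
    (Subgroup.centralizer (P : Set G)).map q =
      Subgroup.centralizer ((P.map q : Subgroup G') : Set G') := by
  apply le_antisymm
  · rintro _ ⟨x, hx, rfl⟩
    rw [Subgroup.mem_centralizer_iff]
    rintro _ ⟨y, hy, rfl⟩
    have := Subgroup.mem_centralizer_iff.1 hx y hy
    rw [← map_mul, this, map_mul]
  · intro g' hg'
    have h1 : conjS g' (P.map q) = P.map q := cent_conjS le_rfl hg'
    obtain ⟨g, rfl, hg⟩ := lift_norm S hP h1
    refine ⟨g, ?_, rfl⟩
    change g ∈ Subgroup.centralizer (P : Set G)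
    rw [Subgroup.mem_centralizer_iff]
    intro x hx
    have h2 : g * x * g⁻¹ ∈ P := by
      have : g * x * g⁻¹ ∈ conjS g P := by
        rw [mem_conjS]
        have e : g⁻¹ * (g * x * g⁻¹) * g = x := by group
        rw [e]
        exact hx
      rwa [hg] at this
    have h3 : g * x * g⁻¹ * x⁻¹ ∈ P ⊓ q.ker := by
      refine Subgroup.mem_inf.2 ⟨mul_mem h2 (inv_mem hx), ?_⟩
      rw [MonoidHom.mem_ker]
      have h4 := Subgroup.mem_centralizer_iff.1 hg' (q x) ⟨x, hx, rfl⟩
      rw [map_mul, map_mul, map_mul, map_inv, map_inv, ← h4, mul_assoc (q x), mul_inv_cancel,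
        mul_one, mul_inv_cancel]
    rw [S.dis P hP, Subgroup.mem_bot] at h3
    have h5 : g * x * g⁻¹ = x := mul_inv_eq_one.1 h3
    rw [mul_inv_eq_iff_eq_mul] at h5
    exact h5.symm

open Classical in
/-- the image of a chain -/
def imC (q : G →* G') (c : Finset (Subgroup G)) : Finset (Subgroup G') :=
  c.image (fun D => D.map q)

theorem mem_imC {c : Finset (Subgroup G)} {D' : Subgroup G'} :
    D' ∈ imC q c ↔ ∃ D ∈ c, D.map q = D' := by
  simp [imC]

/-- a chain with good top -/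
structure GC (ℓ : ℕ) (q : G →* G') (good : Subgroup G → Prop) (c : Finset (Subgroup G)) :
    Prop where
  ne : c.Nonempty
  chain : IsChain (· ≤ ·) (c : Set (Subgroup G))
  gd : good (top c)

theorem GC.top_mem {c : Finset (Subgroup G)} (h : GC ℓ q good c) : top c ∈ c :=
  (H94.top_mem h.chain h.ne).1

theorem GC.le_top {c : Finset (Subgroup G)} (h : GC ℓ q good c) {D : Subgroup G} (hD : D ∈ c) :
    D ≤ top c := (H94.top_mem h.chain h.ne).2 D hD

theorem top_imC {c : Finset (Subgroup G)} (h : GC ℓ q good c) :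
    top (imC q c) = (top c).map q := by
  apply le_antisymm
  · refine sSup_le ?_
    intro D' hD'
    obtain ⟨D, hD, rfl⟩ := mem_imC.1 (Finset.mem_coe.1 hD')
    exact Subgroup.map_mono (h.le_top hD)
  · exact le_sSup (Finset.mem_coe.2 (mem_imC.2 ⟨_, h.top_mem, rfl⟩))

/-- the stabiliser of the image -/
theorem stab_imC (S : GoodSys ℓ q good) {c : Finset (Subgroup G)} (h : GC ℓ q good c) :
    stab (imC q c) = (stab c).map q := by
  apply le_antisymm
  · intro g' hg'
    have hs := mem_stab.1 hg'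
    have h1 : conjS g' ((top c).map q) = (top c).map q :=
      hs _ (mem_imC.2 ⟨_, h.top_mem, rfl⟩)
    obtain ⟨g, rfl, hg⟩ := lift_norm S h.gd h1
    refine ⟨g, ?_, rfl⟩
    change g ∈ stab c
    rw [mem_stab]
    intro D hD
    exact fix_of_map (S.dis _ h.gd) (h.le_top hD) hg (hs _ (mem_imC.2 ⟨D, hD, rfl⟩))
  · rintro _ ⟨g, hg, rfl⟩
    rw [mem_stab]
    intro D' hD'
    obtain ⟨D, hD, rfl⟩ := mem_imC.1 hD'
    rw [← map_conjS, mem_stab.1 hg D hD]

theorem stab_inf_ker (S : GoodSys ℓ q good) {c : Finset (Subgroup G)} (h : GC ℓ q good c) :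
    stab c ⊓ q.ker = Subgroup.centralizer (top c : Set G) ⊓ q.ker := by
  ext n
  rw [Subgroup.mem_inf, Subgroup.mem_inf]
  refine and_congr_left fun hn => ?_
  constructor
  · intro hs
    exact norm_cent (S.dis _ h.gd) hn (mem_stab.1 hs _ h.top_mem)
  · intro hc
    rw [mem_stab]
    intro D hD
    exact cent_conjS (h.le_top hD) hc

theorem card_map (q : G →* G') (H : Subgroup G) :
    Nat.card H = Nat.card (H.map q) * Nat.card (H ⊓ q.ker : Subgroup G) := by
  have h1 := Subgroup.card_eq_card_quotient_mul_card_subgroup (q.comp H.subtype).ker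
  have h2 : Nat.card (H ⧸ (q.comp H.subtype).ker) = Nat.card (H.map q) := by
    have e1 := Nat.card_congr (QuotientGroup.quotientKerEquivRange (q.comp H.subtype)).toEquiv
    rw [e1]
    have e2 : (q.comp H.subtype).range = H.map q := by
      ext x
      constructor
      · rintro ⟨y, rfl⟩
        exact ⟨y, y.2, rfl⟩
      · rintro ⟨y, hy, rfl⟩
        exact ⟨⟨y, hy⟩, rfl⟩
    rw [e2]
  have h3 : Nat.card (q.comp H.subtype).ker = Nat.card (H ⊓ q.ker : Subgroup G) := by
    refine Nat.card_congr ⟨fun x => ⟨x.1.1, x.1.2, ?_⟩, fun x => ⟨⟨x.1, x.2.1⟩, ?_⟩, ?_, ?_⟩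
    · exact x.2
    · exact x.2.2
    · intro x; rfl
    · intro x; rfl
  rw [h1, h2, h3]

theorem card_stab (S : GoodSys ℓ q good) {c : Finset (Subgroup G)} (h : GC ℓ q good c) :
    Nat.card (stab c) =
      Nat.card (Subgroup.centralizer (top c : Set G) ⊓ q.ker : Subgroup G) *
        Nat.card (stab (imC q c)) := by
  rw [card_map q (stab c), stab_inf_ker S h, stab_imC S h, mul_comm]

theorem imC_injOn (S : GoodSys ℓ q good) {c : Finset (Subgroup G)} (h : GC ℓ q good c) :
    Set.InjOn (fun D : Subgroup G => D.map q) (c : Set (Subgroup G)) := by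
  intro D hD D' hD' e
  exact map_inj (S.dis _ h.gd) (h.le_top hD) (h.le_top hD') e

theorem card_imC (S : GoodSys ℓ q good) {c : Finset (Subgroup G)} (h : GC ℓ q good c) :
    (imC q c).card = c.card := by
  classical
  rw [imC, Finset.card_image_of_injOn]
  exact imC_injOn S h

theorem chain_imC {c : Finset (Subgroup G)} (hc : IsChain (· ≤ ·) (c : Set (Subgroup G))) :
    IsChain (· ≤ ·) (imC q c : Set (Subgroup G')) := by
  intro A hA B hB _
  obtain ⟨D, hD, rfl⟩ := mem_imC.1 (Finset.mem_coe.1 hA)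
  obtain ⟨E, hE, rfl⟩ := mem_imC.1 (Finset.mem_coe.1 hB)
  rcases chain_total hc hD hE with h | h
  · exact Or.inl (Subgroup.map_mono h)
  · exact Or.inr (Subgroup.map_mono h)

theorem conjS_self {D : Subgroup G} {x : G} (hx : x ∈ D) : conjS x D = D := by
  ext y
  rw [mem_conjS]
  constructor
  · intro h
    have h1 := mul_mem (mul_mem hx h) (inv_mem hx)
    have e : x * (x⁻¹ * y * x) * x⁻¹ = y := by group
    rwa [e] at h1
  · intro h
    exact mul_mem (mul_mem (inv_mem hx) h) hx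

theorem normal_imC (S : GoodSys ℓ q good) {c : Finset (Subgroup G)} (h : GC ℓ q good c) :
    NormalChain (imC q c) ↔ NormalChain c := by
  unfold NormalChain
  rw [top_imC h]
  constructor
  · intro hn D hD x hx
    rw [mem_normalizer_iff_conjS]
    have h1 := hn _ (mem_imC.2 ⟨D, hD, rfl⟩) (⟨x, hx, rfl⟩ : q x ∈ (top c).map q)
    rw [mem_normalizer_iff_conjS] at h1
    exact fix_of_map (S.dis _ h.gd) (h.le_top hD) (conjS_self hx) h1
  · intro hn D' hD'
    obtain ⟨D, hD, rfl⟩ := mem_imC.1 hD'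
    rintro _ ⟨x, hx, rfl⟩
    rw [mem_normalizer_iff_conjS, ← map_conjS, mem_normalizer_iff_conjS.1 (hn D hD hx)]

open Classical in
/-- conjugate of a chain -/
def cnjC (g : G) (c : Finset (Subgroup G)) : Finset (Subgroup G) := c.image (conjS g)

theorem mem_cnjC {g : G} {c : Finset (Subgroup G)} {E : Subgroup G} :
    E ∈ cnjC g c ↔ ∃ D ∈ c, conjS g D = E := by
  simp [cnjC]

theorem cnjC_one (c : Finset (Subgroup G)) : cnjC 1 c = c := by
  ext D
  rw [mem_cnjC]
  simp only [conjS_one, exists_eq_right]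

theorem cnjC_mul (g h : G) (c : Finset (Subgroup G)) : cnjC g (cnjC h c) = cnjC (g * h) c := by
  ext D
  simp only [mem_cnjC]
  constructor
  · rintro ⟨_, ⟨E, hE, rfl⟩, rfl⟩
    exact ⟨E, hE, by rw [conjS_conjS]⟩
  · rintro ⟨E, hE, rfl⟩
    exact ⟨_, ⟨E, hE, rfl⟩, by rw [conjS_conjS]⟩

theorem chain_cnjC {g : G} {c : Finset (Subgroup G)}
    (hc : IsChain (· ≤ ·) (c : Set (Subgroup G))) :
    IsChain (· ≤ ·) (cnjC g c : Set (Subgroup G)) := by
  intro A hA B hB _
  obtain ⟨D, hD, rfl⟩ := mem_cnjC.1 (Finset.mem_coe.1 hA)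
  obtain ⟨E, hE, rfl⟩ := mem_cnjC.1 (Finset.mem_coe.1 hB)
  rcases chain_total hc hD hE with h | h
  · exact Or.inl (conjS_mono.2 h)
  · exact Or.inr (conjS_mono.2 h)

theorem top_cnjC {g : G} {c : Finset (Subgroup G)} (h : GC ℓ q good c) :
    top (cnjC g c) = conjS g (top c) := by
  apply le_antisymm
  · refine sSup_le ?_
    intro D' hD'
    obtain ⟨D, hD, rfl⟩ := mem_cnjC.1 (Finset.mem_coe.1 hD')
    exact conjS_mono.2 (h.le_top hD)
  · exact le_sSup (Finset.mem_coe.2 (mem_cnjC.2 ⟨_, h.top_mem, rfl⟩))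

theorem GC.cnjC (S : GoodSys ℓ q good) {g : G} {c : Finset (Subgroup G)} (h : GC ℓ q good c) :
    GC ℓ q good (cnjC g c) where
  ne := ⟨_, mem_cnjC.2 ⟨_, h.top_mem, rfl⟩⟩
  chain := chain_cnjC h.chain
  gd := by
    rw [top_cnjC h]
    exact S.cnj _ _ h.gd

theorem imC_cnjC {n : G} (hn : n ∈ q.ker) (c : Finset (Subgroup G)) :
    imC q (cnjC n c) = imC q c := by
  ext D
  simp only [mem_imC, mem_cnjC]
  have e : ∀ E : Subgroup G, (conjS n E).map q = E.map q := by
    intro E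
    rw [map_conjS, MonoidHom.mem_ker.1 hn, conjS_one]
  constructor
  · rintro ⟨_, ⟨E, hE, rfl⟩, rfl⟩
    exact ⟨E, hE, (e E).symm⟩
  · rintro ⟨E, hE, rfl⟩
    exact ⟨_, ⟨E, hE, rfl⟩, e E⟩

/-- chains with the same image are conjugate under the kernel -/
theorem exists_cnj (S : GoodSys ℓ q good) {c d : Finset (Subgroup G)} (hc : GC ℓ q good c)
    (hd : GC ℓ q good d) (e : imC q c = imC q d) : ∃ n ∈ q.ker, cnjC n c = d := by
  have h1 : (top c).map q = (top d).map q := by rw [← top_imC hc, e, top_imC hd]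
  obtain ⟨n, hn, hP⟩ := S.uniq _ _ hc.gd hd.gd h1
  refine ⟨n, hn, ?_⟩
  have key : ∀ D ∈ c, ∀ E ∈ d, E.map q = D.map q → conjS n D = E := by
    intro D hD E hE he
    refine map_inj (S.dis _ hd.gd) ?_ (hd.le_top hE) ?_
    · rw [← hP]
      exact conjS_mono.2 (hc.le_top hD)
    · rw [map_conjS, MonoidHom.mem_ker.1 hn, conjS_one, he]
  ext E
  rw [mem_cnjC]
  constructor
  · rintro ⟨D, hD, rfl⟩
    have h2 : D.map q ∈ imC q d := by rw [← e]; exact mem_imC.2 ⟨D, hD, rfl⟩
    obtain ⟨E, hE, he⟩ := mem_imC.1 h2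
    rw [key D hD E hE he]
    exact hE
  · intro hE
    have h2 : E.map q ∈ imC q c := by rw [e]; exact mem_imC.2 ⟨E, hE, rfl⟩
    obtain ⟨D, hD, he⟩ := mem_imC.1 h2
    exact ⟨D, hD, key D hD E hE he.symm⟩

variable [Finite G]

theorem fix_iff {n : G} {c : Finset (Subgroup G)} (hc : IsChain (· ≤ ·) (c : Set (Subgroup G))) :
    cnjC n c = c ↔ n ∈ stab c := by
  rw [mem_stab]
  constructor
  · intro h D hD
    have h1 : conjS n D ∈ c := by
      rw [← h]
      exact mem_cnjC.2 ⟨D, hD, rfl⟩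
    rcases chain_total hc h1 hD with h2 | h2
    · exact Subgroup.eq_of_le_of_card_ge h2 (card_conjS n D).ge
    · exact (Subgroup.eq_of_le_of_card_ge h2 (card_conjS n D).le).symm
  · intro h
    ext D
    rw [mem_cnjC]
    constructor
    · rintro ⟨E, hE, rfl⟩
      rw [h E hE]
      exact hE
    · intro hD
      exact ⟨D, hD, h D hD⟩

/-- the orbit count -/
theorem card_fibre (S : GoodSys ℓ q good) {c : Finset (Subgroup G)} (hc : GC ℓ q good c)
    (s : Finset (Finset (Subgroup G)))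
    (hs : ∀ d, d ∈ s ↔ GC ℓ q good d ∧ imC q d = imC q c) :
    ∑ d ∈ s, Nat.card (Subgroup.centralizer (top d : Set G) ⊓ q.ker : Subgroup G) =
      Nat.card q.ker := by
  classical
  have := Fintype.ofFinite G
  have h1 : ∀ n ∈ (Finset.univ : Finset G).filter (fun n => n ∈ q.ker), cnjC n c ∈ s := by
    intro n hn
    rw [hs]
    have hn' := (Finset.mem_filter.1 hn).2
    exact ⟨hc.cnjC S, imC_cnjC hn' c⟩
  have h2 := Finset.card_eq_sum_card_fiberwise h1
  have h3 : ((Finset.univ : Finset G).filter (fun n => n ∈ q.ker)).card = Nat.card q.ker := by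
    rw [Nat.card_eq_fintype_card, Fintype.card_subtype]
  rw [← h3, h2]
  refine Finset.sum_congr rfl ?_
  intro d hd
  obtain ⟨hdg, hde⟩ := (hs d).1 hd
  obtain ⟨t, ht, htd⟩ := exists_cnj S hc hdg hde.symm
  rw [← stab_inf_ker S hdg]
  have h4 : Nat.card (stab d ⊓ q.ker : Subgroup G) =
      ((Finset.univ : Finset G).filter (fun n => n ∈ stab d ⊓ q.ker)).card := by
    rw [Nat.card_eq_fintype_card, Fintype.card_subtype]
  rw [h4]
  refine Finset.card_bij (fun n _ => n * t) ?_ ?_ ?_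
  · intro n hn
    have hn' := (Finset.mem_filter.1 hn).2
    rw [Finset.mem_filter, Finset.mem_filter]
    refine ⟨⟨Finset.mem_univ _, mul_mem hn'.2 ht⟩, ?_⟩
    rw [← cnjC_mul, htd]
    exact (fix_iff hdg.chain).2 hn'.1
  · intro a _ b _ h
    exact mul_right_cancel h
  · intro m hm
    rw [Finset.mem_filter, Finset.mem_filter] at hm
    refine ⟨m * t⁻¹, ?_, by group⟩
    rw [Finset.mem_filter]
    refine ⟨Finset.mem_univ _, Subgroup.mem_inf.2 ⟨?_, mul_mem hm.1.2 (inv_mem ht)⟩⟩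
    change m * t⁻¹ ∈ stab d
    rw [← fix_iff hdg.chain]
    conv_lhs => rw [← htd]
    rw [cnjC_mul]
    have e : m * t⁻¹ * t = m := by group
    rw [e]
    exact hm.2

variable [Finite G']

/-- every normal chain of `ℓ`-subgroups of the quotient is an image -/
theorem exists_lift (S : GoodSys ℓ q good) {M : Subgroup G} (hM : q.ker ≤ M)
    {c' : Finset (Subgroup G')} (hc' : c' ∈ chainsOn (psubIn ℓ (M.map q)) ⊥) :
    ∃ c, c ∈ chainsOn (psubIn ℓ M) ⊥ ∧ GC ℓ q good c ∧ imC q c = c' := by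
  classical
  obtain ⟨hsub, hbot, hch⟩ := mem_chainsOn.1 hc'
  obtain ⟨htm, hle⟩ := H94.top_mem hch ⟨_, hbot⟩
  obtain ⟨hTM, hTp⟩ := mem_psubIn.1 (hsub htm)
  obtain ⟨P, hP, hPT⟩ := S.ex _ hTp
  have hPM : P ≤ M := by
    have h1 : P ≤ (M.map q).comap q := by
      rw [← Subgroup.map_le_iff_le_comap, hPT]
      exact hTM
    rwa [Subgroup.comap_map_eq, sup_eq_left.2 hM] at h1
  set f : Subgroup G' → Subgroup G := fun D' => P ⊓ D'.comap q with hf
  have hfm : ∀ D' ∈ c', (f D').map q = D' := by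
    intro D' hD'
    apply le_antisymm
    · rintro _ ⟨x, hx, rfl⟩
      exact hx.2
    · intro y hy
      have h2 : y ∈ P.map q := by rw [hPT]; exact hle D' hD' hy
      obtain ⟨x, hx, rfl⟩ := h2
      exact ⟨x, ⟨hx, hy⟩, rfl⟩
  have hmem : ∀ {E : Subgroup G}, E ∈ c'.image f ↔ ∃ D' ∈ c', f D' = E := by
    intro E
    simp
  have hfb : f ⊥ = ⊥ := by
    rw [hf]
    change P ⊓ (⊥ : Subgroup G').comap q = ⊥
    rw [MonoidHom.comap_bot]
    exact S.dis P hP
  have hft : f (top c') = P := by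
    apply le_antisymm inf_le_left
    intro x hx
    refine ⟨hx, ?_⟩
    change q x ∈ top c'
    rw [← hPT]
    exact ⟨x, hx, rfl⟩
  have hchain : IsChain (· ≤ ·) (c'.image f : Set (Subgroup G)) := by
    intro A hA B hB _
    obtain ⟨D, hD, rfl⟩ := hmem.1 (Finset.mem_coe.1 hA)
    obtain ⟨E, hE, rfl⟩ := hmem.1 (Finset.mem_coe.1 hB)
    rcases chain_total hch hD hE with h | h
    · exact Or.inl (inf_le_inf_left _ (Subgroup.comap_mono h))
    · exact Or.inr (inf_le_inf_left _ (Subgroup.comap_mono h))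
  have htop : top (c'.image f) = P := by
    apply le_antisymm
    · refine sSup_le ?_
      intro D hD
      obtain ⟨D', _, rfl⟩ := hmem.1 (Finset.mem_coe.1 hD)
      exact inf_le_left
    · exact le_sSup (Finset.mem_coe.2 (hmem.2 ⟨_, htm, hft⟩))
  refine ⟨c'.image f, ?_, ⟨⟨_, hmem.2 ⟨_, htm, hft⟩⟩, hchain, ?_⟩, ?_⟩
  · rw [mem_chainsOn]
    refine ⟨?_, hmem.2 ⟨⊥, hbot, hfb⟩, hchain⟩
    intro D hD
    obtain ⟨D', _, rfl⟩ := hmem.1 hD
    rw [mem_psubIn]
    exact ⟨inf_le_left.trans hPM, (S.pg P hP).to_le inf_le_left⟩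
  · rw [htop]
    exact hP
  · ext D'
    rw [mem_imC]
    constructor
    · rintro ⟨E, hE, rfl⟩
      obtain ⟨D, hD, rfl⟩ := hmem.1 hE
      rw [hfm D hD]
      exact hD
    · intro hD'
      exact ⟨f D', hmem.2 ⟨D', hD', rfl⟩, hfm D' hD'⟩

open Classical in
/-- NCO: alternating sums over the normal chains with good top. -/
theorem nco (S : GoodSys ℓ q good) {M : Subgroup G} (hM : q.ker ≤ M)
    (w : Finset (Subgroup G) → ℤ) (w' : Finset (Subgroup G') → ℤ)
    (hw : ∀ c ∈ chainsOn (psubIn ℓ M) ⊥, NormalChain c → good (top c) → w c = w' (imC q c)) :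
    ∑ c ∈ (chainsOn (psubIn ℓ M) ⊥).filter (fun c => NormalChain c ∧ good (top c)),
        (-1) ^ (c.card + 1) * ((Nat.card (stab c) : ℤ) * w c) =
      (Nat.card q.ker : ℤ) * ∑ c' ∈ (chainsOn (psubIn ℓ (M.map q)) ⊥).filter NormalChain,
        (-1) ^ (c'.card + 1) * ((Nat.card (stab c') : ℤ) * w' c') := by
  have hGC : ∀ c ∈ (chainsOn (psubIn ℓ M) ⊥).filter (fun c => NormalChain c ∧ good (top c)),
      GC ℓ q good c := by
    intro c hc
    obtain ⟨h1, h2, h3⟩ := Finset.mem_filter.1 hc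
    obtain ⟨_, h5, h6⟩ := mem_chainsOn.1 h1
    exact ⟨⟨_, h5⟩, h6, h3⟩
  have hmaps : ∀ c ∈ (chainsOn (psubIn ℓ M) ⊥).filter
      (fun c => NormalChain c ∧ good (top c)), imC q c ∈
      (chainsOn (psubIn ℓ (M.map q)) ⊥).filter NormalChain := by
    intro c hc
    have hg := hGC c hc
    obtain ⟨h1, h2, h3⟩ := Finset.mem_filter.1 hc
    obtain ⟨h4, h5, h6⟩ := mem_chainsOn.1 h1
    rw [Finset.mem_filter, mem_chainsOn]
    refine ⟨⟨?_, ?_, chain_imC h6⟩, (normal_imC S hg).2 h2⟩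
    · intro D' hD'
      obtain ⟨D, hD, rfl⟩ := mem_imC.1 hD'
      obtain ⟨h7, h8⟩ := mem_psubIn.1 (h4 hD)
      rw [mem_psubIn]
      exact ⟨Subgroup.map_mono h7, h8.map q⟩
    · exact mem_imC.2 ⟨⊥, h5, Subgroup.map_bot q⟩
  rw [← Finset.sum_fiberwise_of_maps_to hmaps, Finset.mul_sum]
  refine Finset.sum_congr rfl ?_
  intro c' hc'
  have hc'' := (Finset.mem_filter.1 hc').1
  obtain ⟨c₀, hc₀, hg₀, he₀⟩ := exists_lift S hM hc''
  have hfib := card_fibre S hg₀
    (((chainsOn (psubIn ℓ M) ⊥).filter (fun c => NormalChain c ∧ good (top c))).filter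
      (fun c => imC q c = c')) (by
    intro d
    constructor
    · intro hd
      obtain ⟨h1, h2⟩ := Finset.mem_filter.1 hd
      exact ⟨hGC d h1, by rw [h2, he₀]⟩
    · rintro ⟨h1, h2⟩
      rw [he₀] at h2
      obtain ⟨h3, h4, h5⟩ := mem_chainsOn.1 hc''
      have hle : ∀ D ∈ d, D ≤ M := by
        intro D hD
        have h6 : D.map q ∈ c' := by rw [← h2]; exact mem_imC.2 ⟨D, hD, rfl⟩
        have h7 := (mem_psubIn.1 (h3 h6)).1
        rw [Subgroup.map_le_iff_le_comap, Subgroup.comap_map_eq, sup_eq_left.2 hM] at h7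
        exact h7
      rw [Finset.mem_filter, Finset.mem_filter, mem_chainsOn]
      refine ⟨⟨⟨?_, ?_, h1.chain⟩, ?_, h1.gd⟩, h2⟩
      · intro D hD
        rw [mem_psubIn]
        exact ⟨hle D hD, (S.pg _ h1.gd).to_le (h1.le_top hD)⟩
      · have h8 : (⊥ : Subgroup G') ∈ imC q d := by rw [h2]; exact h4
        obtain ⟨D, hD, hDb⟩ := mem_imC.1 h8
        have h9 : D = ⊥ := map_inj (S.dis _ h1.gd) (h1.le_top hD) bot_le
          (by rw [hDb, Subgroup.map_bot])
        rw [← h9]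
        exact hD
      · rw [← normal_imC S h1, h2]
        exact (Finset.mem_filter.1 hc').2)
  rw [← hfib]
  push_cast
  rw [Finset.sum_mul]
  refine Finset.sum_congr rfl ?_
  intro c hc
  obtain ⟨h1, h2⟩ := Finset.mem_filter.1 hc
  have hg := hGC c h1
  obtain ⟨h3, h4, h5⟩ := Finset.mem_filter.1 h1
  rw [hw c h3 h4 h5, card_stab S hg, ← card_imC S hg, h2]
  push_cast
  ring

end Pool.Agent.PP.H6
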