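import Pool.Agent.Helper6_PP.Fcu
import Pool.Agent.Helper98_PP.StmtsR2b
import Pool.Agent.Helper39_AWR.GrpA

/-!
# Squad PP, module COM: the components, group theory
-/

open scoped BigOperators commutatorElement

set_option linter.unusedSectionVars false

noncomputable section

namespace Pool.Agent.PP.H6

open Pool.Agent.Helper51_AWC Pool.Agent.Helper79_WRA Pool.Agent.PP Pool.Agent.PP.H46
open Pool.Agent.AWR.H39

variable {G : Type} [Group G] [Finite G]

/-- the index set of the components -/
def CI (N : Subgroup G) : Type := {A : Subgroup G // MinAdm (N ⊓ Subgroup.center G) N A}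

instance (N : Subgroup G) : Finite (CI N) := by
  unfold CI
  infer_instance

/-- the components -/
def CK (N : Subgroup G) (i : CI N) : Subgroup G := i.1

variable {N : Subgroup G}

theorem ck_le (i : CI N) : CK N i ≤ N := i.2.sub

theorem ck_comm (h : IsChief (N ⊓ Subgroup.center G) N)
    (hna : ¬ ⁅N, N⁆ ≤ N ⊓ Subgroup.center G) (i j : CI N) (hij : i ≠ j) :
    ∀ x ∈ CK N i, ∀ y ∈ CK N j, x * y = y * x := by
  intro x hx y hy
  have hne : i.1 ≠ j.1 := fun h => hij (Subtype.ext h)
  have hx' : x ∈ ⁅i.1, i.1⁆ ⊔ (N ⊓ Subgroup.center G) := by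
    rw [i.2.sup_comm h hna]; exact hx
  obtain ⟨k, hk, z, hz, rfl⟩ := (mem_sup_central h.central).1 hx'
  have h1 := MinAdm.comm h i.2 j.2 hne hk hy
  have h2 := comm_central h.central hz y
  rw [mul_assoc, ← h2, ← mul_assoc, ← h1, mul_assoc]

theorem ck_sup (h : IsChief (N ⊓ Subgroup.center G) N) : (⨆ i, CK N i) = N := by
  apply le_antisymm
  · exact iSup_le fun i => ck_le i
  · exact Pool.Agent.AWR.H39.le_of_minAdm h fun A hA => le_iSup (CK N) (⟨A, hA⟩ : CI N)

theorem ci_nonempty (h : IsChief (N ⊓ Subgroup.center G) N) : Nonempty (CI N) := by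
  obtain ⟨A, hA, _⟩ := exists_minAdm h h.adm h.ne.symm
  exact ⟨⟨A, hA⟩⟩

/-- the action on the components -/
def cact (h : IsChief (N ⊓ Subgroup.center G) N) (g : G) : Equiv.Perm (CI N) where
  toFun i := ⟨cj g i.1, i.2.cj h g⟩
  invFun i := ⟨cj g⁻¹ i.1, i.2.cj h g⁻¹⟩
  left_inv i := by
    apply Subtype.ext
    change cj g⁻¹ (cj g i.1) = i.1
    rw [cj_mul, inv_mul_cancel, cj_one]
  right_inv i := by
    apply Subtype.ext
    change cj g (cj g⁻¹ i.1) = i.1
    rw [cj_mul, mul_inv_cancel, cj_one]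

theorem cact_map (h : IsChief (N ⊓ Subgroup.center G) N) (g : G) (i : CI N) :
    (CK N i).map (MulAut.conj g).toMonoidHom = CK N (cact h g i) := rfl

theorem cact_mul (h : IsChief (N ⊓ Subgroup.center G) N) (g k : G) :
    cact h (g * k) = cact h g * cact h k := by
  apply Equiv.ext
  intro i
  apply Subtype.ext
  change cj (g * k) i.1 = cj g (cj k i.1)
  rw [cj_mul]

theorem cact_norm (h : IsChief (N ⊓ Subgroup.center G) N) (g : G) (i : CI N) :
    g ∈ Subgroup.normalizer (CK N i : Set G) ↔ cact h g i = i := by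
  rw [mem_normalizer_iff_conjS]
  constructor
  · intro h1
    exact Subtype.ext h1
  · intro h1
    exact congrArg Subtype.val h1

/-- the centre of `N` is an `ℓ'`-group -/
theorem center_card {ℓ : ℕ} [Fact ℓ.Prime] (hO : opCore ℓ N = ⊥) :
    ¬ ℓ ∣ Nat.card (Subgroup.center N) := by
  intro hd
  have P : Sylow ℓ (Subgroup.center N) := default
  have hne := Sylow.ne_bot_of_dvd_card P hd
  set Q : Subgroup N := (P : Subgroup (Subgroup.center N)).map (Subgroup.center N).subtype with hQ
  have hQn : Q.Normal := by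
    constructor
    rintro _ ⟨x, hx, rfl⟩ g
    refine ⟨x, hx, ?_⟩
    have := Subgroup.mem_center_iff.1 x.2 g
    change (x : N) = g * (x : N) * g⁻¹
    rw [this]
    group
  have hQp : IsPGroup ℓ Q := P.isPGroup'.map _
  have h3 : Q ≤ opCore ℓ N := le_sSup ⟨hQn, hQp⟩
  rw [hO, le_bot_iff, hQ, Subgroup.map_eq_bot_iff_of_injective _
    (Subgroup.center N).subtype_injective] at h3
  exact hne h3

/-- `N` is not a component -/
theorem ck_ne (h : IsChief (N ⊓ Subgroup.center G) N)
    (hna : ¬ ⁅N, N⁆ ≤ N ⊓ Subgroup.center G)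
    (hs : ¬ IsSimpleGroup (N ⧸ (Subgroup.center G).subgroupOf N)) (i : CI N) : i.1 ≠ N := by
  intro hi
  apply hs
  have hA : MinAdm (N ⊓ Subgroup.center G) N N := by
    have := i.2
    rwa [hi] at this
  have hker : (QuotientGroup.mk' ((Subgroup.center G).subgroupOf N)).ker =
      (Subgroup.center G).subgroupOf N := QuotientGroup.ker_mk' _
  have hZ : ((Subgroup.center G).subgroupOf N).map N.subtype = N ⊓ Subgroup.center G := by
    rw [Subgroup.subgroupOf_map_subtype, inf_comm]
  refine { exists_pair_ne := ?_, eq_bot_or_eq_top_of_normal := ?_ }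
  · by_contra hcon
    push Not at hcon
    apply h.ne
    apply le_antisymm h.le
    intro x hx
    have h1 := hcon (QuotientGroup.mk' ((Subgroup.center G).subgroupOf N) ⟨x, hx⟩)
      (QuotientGroup.mk' ((Subgroup.center G).subgroupOf N) 1)
    rw [map_one, ← MonoidHom.mem_ker, hker, Subgroup.mem_subgroupOf] at h1
    exact Subgroup.mem_inf.2 ⟨hx, h1⟩
  · intro H hH
    set T : Subgroup G := (H.comap (QuotientGroup.mk' ((Subgroup.center G).subgroupOf N))).map
      N.subtype with hT
    have hmem : ∀ {x : G} (hx : x ∈ N), x ∈ T ↔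
        QuotientGroup.mk' ((Subgroup.center G).subgroupOf N) ⟨x, hx⟩ ∈ H := by
      intro x hx
      constructor
      · rintro ⟨y, hy, hyx⟩
        have : y = ⟨x, hx⟩ := Subtype.ext hyx
        rw [← this]
        exact hy
      · intro hh
        exact ⟨⟨x, hx⟩, hh, rfl⟩
    have hTN : T ≤ N := by
      rintro _ ⟨y, _, rfl⟩
      exact y.2
    have hZT : N ⊓ Subgroup.center G ≤ T := by
      intro z hz
      obtain ⟨hz1, hz2⟩ := Subgroup.mem_inf.1 hz
      rw [hmem hz1]
      have : QuotientGroup.mk' ((Subgroup.center G).subgroupOf N) ⟨z, hz1⟩ = 1 := by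
        rw [← MonoidHom.mem_ker, hker, Subgroup.mem_subgroupOf]
        exact hz2
      rw [this]
      exact H.one_mem
    have hconj : ∀ a ∈ N, ∀ t ∈ T, a * t * a⁻¹ ∈ T := by
      intro a ha t ht
      have htN := hTN ht
      have h2 : a * t * a⁻¹ ∈ N := N.mul_mem (N.mul_mem ha htN) (N.inv_mem ha)
      rw [hmem h2]
      rw [hmem htN] at ht
      have := hH.conj_mem _ ht (QuotientGroup.mk' ((Subgroup.center G).subgroupOf N) ⟨a, ha⟩)
      rw [← map_mul, ← map_inv, ← map_mul] at this
      exact this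
    rcases MinAdm.simple h hA hZT hTN hconj with h1 | h1
    · left
      rw [eq_bot_iff]
      intro y hy
      obtain ⟨x, rfl⟩ := QuotientGroup.mk'_surjective _ y
      have h2 : (x : G) ∈ T := (hmem x.2).2 hy
      rw [h1] at h2
      rw [Subgroup.mem_bot, ← MonoidHom.mem_ker, hker, Subgroup.mem_subgroupOf]
      exact (Subgroup.mem_inf.1 h2).2
    · right
      rw [eq_top_iff]
      intro y _
      obtain ⟨x, rfl⟩ := QuotientGroup.mk'_surjective _ y
      have h2 : (x : G) ∈ T := by rw [h1]; exact x.2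
      exact (hmem x.2).1 h2

/-- the measure of a component -/
theorem ck_mu (h : IsChief (N ⊓ Subgroup.center G) N)
    (hna : ¬ ⁅N, N⁆ ≤ N ⊓ Subgroup.center G)
    (hs : ¬ IsSimpleGroup (N ⧸ (Subgroup.center G).subgroupOf N)) (i : CI N) :
    mu ((CK N i).subgroupOf (Subgroup.normalizer (CK N i : Set G))) < mu N := by
  have hT : Subgroup.center G ≤ Subgroup.normalizer (CK N i : Set G) := by
    intro z hz
    rw [Subgroup.mem_normalizer_iff]
    intro x
    have e : z * x * z⁻¹ = x := by
      rw [← Subgroup.mem_center_iff.1 hz x]; group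
    rw [e]
  have h1 := mu_le hT (le_refl (CK N i))
  have h2 : mu (CK N i) < mu N := by
    unfold mu
    rw [← Subgroup.inf_relIndex_left, ← Subgroup.inf_relIndex_left N]
    have h3 : CK N i ⊓ Subgroup.center G = N ⊓ Subgroup.center G :=
      le_antisymm (inf_le_inf_right _ (ck_le i)) (le_inf i.2.le inf_le_right)
    rw [h3]
    exact i.2.relIndex_lt (ck_ne h hna hs i)
  exact lt_of_le_of_lt h1 h2

/-- the product of the other components -/
def CO (N : Subgroup G) (i : CI N) : Subgroup G := ⨆ j : {j : CI N // j ≠ i}, CK N j.1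

theorem co_le (i : CI N) : CO N i ≤ N := iSup_le fun j => ck_le j.1

theorem co_comm (h : IsChief (N ⊓ Subgroup.center G) N)
    (hna : ¬ ⁅N, N⁆ ≤ N ⊓ Subgroup.center G) (i : CI N) :
    ∀ x ∈ CK N i, ∀ y ∈ CO N i, x * y = y * x := by
  intro x hx
  have h1 : CO N i ≤ Subgroup.centralizer ({x} : Set G) := by
    apply iSup_le
    rintro ⟨j, hj⟩ y hy
    rw [Subgroup.mem_centralizer_singleton_iff]
    exact (ck_comm h hna i j hj.symm x hx y hy).symm
  intro y hy
  exact (Subgroup.mem_centralizer_singleton_iff.1 (h1 hy)).symm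

theorem co_sup (h : IsChief (N ⊓ Subgroup.center G) N) (i : CI N) : CK N i ⊔ CO N i = N := by
  apply le_antisymm (sup_le (ck_le i) (co_le i))
  conv_lhs => rw [← ck_sup h]
  apply iSup_le
  intro j
  by_cases hj : j = i
  · rw [hj]; exact le_sup_left
  · exact (le_iSup (fun j : {j : CI N // j ≠ i} => CK N j.1) ⟨j, hj⟩).trans le_sup_right

theorem sub_sup {A B N : Subgroup G} (hA : A ≤ N) (hB : B ≤ N) (h : A ⊔ B = N) :
    A.subgroupOf N ⊔ B.subgroupOf N = ⊤ := by
  rw [← Subgroup.subgroupOf_sup hA hB, h, Subgroup.subgroupOf_self]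

theorem sub_comm {A B N : Subgroup G} (h : ∀ x ∈ A, ∀ y ∈ B, x * y = y * x) :
    ∀ x ∈ A.subgroupOf N, ∀ y ∈ B.subgroupOf N, x * y = y * x := by
  intro x hx y hy
  exact Subtype.ext (h x (Subgroup.mem_subgroupOf.1 hx) y (Subgroup.mem_subgroupOf.1 hy))

end Pool.Agent.PP.H6
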