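import Pool.Agent.Helper6_PP.ComA
import Pool.Agent.Helper18_PP.Dzf

/-!
# Squad PP, module COM: the blocks of the components
-/

open scoped BigOperators commutatorElement

set_option linter.unusedSectionVars false

noncomputable section

namespace Pool.Agent.PP.H6

open Pool.Agent.Helper51_AWC Pool.Agent.Helper79_WRA Pool.Agent.PP Pool.Agent.PP.H46
open Pool.Agent.AWR.H39

section equiv

variable {F H H' : Type} [Field F] [Group H] [Finite H] [Group H'] [Finite H'] (e : H ≃* H')

theorem card_cent_eq (x : H) : Nat.card (Subgroup.centralizer ({e x} : Set H')) =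
    Nat.card (Subgroup.centralizer ({x} : Set H)) := by
  have h : (Subgroup.centralizer ({x} : Set H)).map e.toMonoidHom =
      Subgroup.centralizer ({e x} : Set H') := by
    ext y
    rw [Subgroup.mem_centralizer_singleton_iff]
    constructor
    · rintro ⟨z, hz, rfl⟩
      have := Subgroup.mem_centralizer_singleton_iff.1 hz
      change e z * e x = e x * e z
      rw [← map_mul, this, map_mul]
    · intro hy
      refine ⟨e.symm y, ?_, e.apply_symm_apply y⟩
      change e.symm y ∈ Subgroup.centralizer ({x} : Set H)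
      rw [Subgroup.mem_centralizer_singleton_iff]
      apply e.injective
      rw [map_mul, map_mul, e.apply_symm_apply, hy]
  rw [← h, Subgroup.card_map_of_injective e.injective]

theorem dz_equiv {ℓ : ℕ} {a : H' → F} (h : DZ ℓ a) : DZ ℓ (fun x => a (e x)) := by
  unfold DZ at h ⊢
  induction h using Submodule.span_induction with
  | mem a ha =>
    obtain ⟨x, hx, rfl⟩ := ha
    apply Submodule.subset_span
    refine ⟨e.symm x, ?_, ?_⟩
    · rw [← card_cent_eq e, e.apply_symm_apply]
      exact hx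
    · funext y
      classical
      unfold clsum
      have hiff : (∃ q ∈ (⊤ : Subgroup H'), e y = q * x * q⁻¹) ↔
          ∃ q ∈ (⊤ : Subgroup H), y = q * e.symm x * q⁻¹ := by
        constructor
        · rintro ⟨q, _, hq⟩
          refine ⟨e.symm q, Subgroup.mem_top _, ?_⟩
          apply e.injective
          rw [map_mul, map_mul, map_inv, e.apply_symm_apply, e.apply_symm_apply, hq]
        · rintro ⟨q, _, hq⟩
          refine ⟨e q, Subgroup.mem_top _, ?_⟩
          rw [hq, map_mul, map_mul, map_inv, e.apply_symm_apply]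
      by_cases hc : ∃ q ∈ (⊤ : Subgroup H'), e y = q * x * q⁻¹
      · rw [if_pos hc, if_pos (hiff.1 hc)]
      · rw [if_neg hc, if_neg (fun h => hc (hiff.2 h))]
  | zero => exact Submodule.zero_mem _
  | add a b _ _ ha hb => exact Submodule.add_mem _ ha hb
  | smul c a _ ha => exact Submodule.smul_mem _ c ha

theorem dz_iff {ℓ : ℕ} {a : H' → F} : DZ ℓ (fun x => a (e x)) ↔ DZ ℓ a := by
  constructor
  · intro h
    have := dz_equiv e.symm h
    have e1 : (fun x : H' => (fun x : H => a (e x)) (e.symm x)) = a := by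
      funext x
      change a (e (e.symm x)) = a x
      rw [e.apply_symm_apply]
    rwa [e1] at this
  · exact dz_equiv e

end equiv

variable {F G : Type} [Field F] [Group G] [Finite G] {N : Subgroup G}

/-- conjugation on a subgroup normalised by `g` inside `N` -/
def conjE [hN : N.Normal] {A : Subgroup G} {g : G} (hg : g ∈ Subgroup.normalizer (A : Set G)) :
    A.subgroupOf N ≃* A.subgroupOf N where
  toFun t := ⟨MulAut.conjNormal g (t : N), by
    rw [Subgroup.mem_subgroupOf, MulAut.conjNormal_apply]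
    exact (Subgroup.mem_normalizer_iff.1 hg _).1 (Subgroup.mem_subgroupOf.1 t.2)⟩
  invFun t := ⟨MulAut.conjNormal g⁻¹ (t : N), by
    rw [Subgroup.mem_subgroupOf, MulAut.conjNormal_apply]
    exact (Subgroup.mem_normalizer_iff.1 (inv_mem hg) _).1 (Subgroup.mem_subgroupOf.1 t.2)⟩
  left_inv t := by
    apply Subtype.ext
    change MulAut.conjNormal g⁻¹ (MulAut.conjNormal g (t : N)) = t
    rw [map_inv, MulAut.inv_apply_self]
  right_inv t := by
    apply Subtype.ext
    change MulAut.conjNormal g (MulAut.conjNormal g⁻¹ (t : N)) = t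
    rw [map_inv, MulAut.apply_inv_self]
  map_mul' s t := by
    apply Subtype.ext
    change MulAut.conjNormal g ((s : N) * (t : N)) =
      MulAut.conjNormal g (s : N) * MulAut.conjNormal g (t : N)
    rw [map_mul]

theorem conjE_coe [hN : N.Normal] {A : Subgroup G} {g : G}
    (hg : g ∈ Subgroup.normalizer (A : Set G)) (t : A.subgroupOf N) :
    ((conjE hg t : A.subgroupOf N) : N) = MulAut.conjNormal g (t : N) := rfl

/-- the block extended to the whole group -/
def bx (N A : Subgroup G) (f₁ : A.subgroupOf N → F) : G → F := ext0 N (ext0 (A.subgroupOf N) f₁)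

theorem bx_mem {A : Subgroup G} (hA : A ≤ N) (f₁ : A.subgroupOf N → F) {x : G} (hx : x ∈ A) :
    bx N A f₁ x = f₁ ⟨⟨x, hA hx⟩, Subgroup.mem_subgroupOf.2 hx⟩ := by
  unfold bx
  rw [ext0_of_mem _ (hA hx)]
  exact ext0_of_mem _ (Subgroup.mem_subgroupOf.2 hx)

theorem bx_not {A : Subgroup G} (f₁ : A.subgroupOf N → F) {x : G} (hx : x ∉ A) :
    bx N A f₁ x = 0 := by
  unfold bx
  by_cases h : x ∈ N
  · rw [ext0_of_mem _ h]
    exact ext0_of_not_mem _ (fun h' => hx (Subgroup.mem_subgroupOf.1 h'))
  · exact ext0_of_not_mem _ h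

theorem bx_coe {A : Subgroup G} (f₁ : A.subgroupOf N → F) (t : A.subgroupOf N) :
    bx N A f₁ ((t : N) : G) = f₁ t := by
  unfold bx
  rw [ext0_of_mem _ (t : N).2]
  exact ext0_of_mem _ t.2

theorem bx_coe' {A : Subgroup G} (f₁ : A.subgroupOf N → F) (t : N) :
    bx N A f₁ (t : G) = ext0 (A.subgroupOf N) f₁ t := by
  unfold bx
  exact ext0_of_mem _ t.2

/-- stability of the blocks under the normaliser -/
theorem bx_cl (hN : N.Normal) {A : Subgroup G} (hA : A ≤ N)
    (huniq : ∀ f₁ f₂ : A.subgroupOf N → F, ∀ b : N → F, IsBlk b → BlkU (A.subgroupOf N) b f₁ →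
      BlkU (A.subgroupOf N) b f₂ → f₁ = f₂) {b : N → F} (hb : IsBlk b)
    (hst : stabF (ext0 N b) = ⊤) {f₁ : A.subgroupOf N → F} (hf₁ : BlkU (A.subgroupOf N) b f₁)
    {g : G} (hg : g ∈ Subgroup.normalizer (A : Set G)) (x : G) :
    bx N A f₁ (g * x * g⁻¹) = bx N A f₁ x := by
  have hbg : ∀ y : N, b (MulAut.conjNormal g y) = b y := by
    intro y
    have h1 : g ∈ stabF (ext0 N b) := by rw [hst]; exact Subgroup.mem_top g
    have h2 := h1 (y : G)
    rw [ext0_of_mem _ y.2, ext0_of_mem _ (hN.conj_mem _ y.2 g)] at h2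
    rw [← h2]
    congr 1
  have h1 : BlkU (A.subgroupOf N) b (fun t => f₁ (conjE hg t)) := by
    refine ⟨H18.blk_equiv (conjE hg) hf₁.1, ?_⟩
    have e1 : ext0 (A.subgroupOf N) (fun t => f₁ (conjE hg t)) =
        fun y => ext0 (A.subgroupOf N) f₁ ((MulAut.conjNormal g : MulAut N) y) := by
      funext y
      by_cases hy : y ∈ A.subgroupOf N
      · have hy' : (MulAut.conjNormal g : MulAut N) y ∈ A.subgroupOf N :=
          (conjE hg ⟨y, hy⟩).2
        rw [ext0_of_mem _ hy, ext0_of_mem _ hy']
        rfl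
      · have hy' : (MulAut.conjNormal g : MulAut N) y ∉ A.subgroupOf N := by
          intro h
          apply hy
          rw [Subgroup.mem_subgroupOf, MulAut.conjNormal_apply] at h
          rw [Subgroup.mem_subgroupOf]
          exact (Subgroup.mem_normalizer_iff.1 hg _).2 h
        rw [ext0_of_not_mem _ hy, ext0_of_not_mem _ hy']
    have e2 : b = fun y => b ((MulAut.conjNormal g : MulAut N) y) := funext fun y => (hbg y).symm
    rw [e1]
    conv_lhs => rw [e2]
    rw [H18.mulF_equiv (MulAut.conjNormal g : MulAut N), hf₁.2]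
    exact e2.symm
  have h2 := huniq _ _ b hb h1 hf₁
  by_cases hx : x ∈ A
  · have hgx := (Subgroup.mem_normalizer_iff.1 hg x).1 hx
    rw [bx_mem hA _ hx, bx_mem hA _ hgx]
    have h3 := congrFun h2 ⟨⟨x, hA hx⟩, Subgroup.mem_subgroupOf.2 hx⟩
    rw [← h3]
    rfl
  · have hgx : g * x * g⁻¹ ∉ A := fun h => hx ((Subgroup.mem_normalizer_iff.1 hg x).2 h)
    rw [bx_not _ hx, bx_not _ hgx]

/-- `A` as a subgroup of `N` and of its normaliser -/
def eqv (A N T : Subgroup G) (hN : A ≤ N) (hT : A ≤ T) : A.subgroupOf T ≃* A.subgroupOf N :=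
  (Subgroup.subgroupOfEquivOfLe hT).trans (Subgroup.subgroupOfEquivOfLe hN).symm

theorem eqv_coe {A N T : Subgroup G} (hN : A ≤ N) (hT : A ≤ T) (t : A.subgroupOf T) :
    (((eqv A N T hN hT t : A.subgroupOf N) : N) : G) = ((t : T) : G) := rfl

end Pool.Agent.PP.H6
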