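import Pool.Agent.Helper6_PP.ComB
import Pool.Agent.Helper66_PP.Pos1
import Pool.Agent.Helper87_PP.Cmc

/-!
# Squad PP, module COM: units and the final statement
-/

open scoped BigOperators commutatorElement

set_option linter.unusedSectionVars false

noncomputable section

namespace Pool.Agent.PP.H6

open Pool.Agent.Helper51_AWC Pool.Agent.Helper79_WRA Pool.Agent.PP Pool.Agent.PP.H46
open Pool.Agent.AWR.H39

section unt

variable {F Y : Type} [Field F] [Group Y] [Finite Y]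

theorem ma_dl_mul (g h : Y) : ma (dl F g) * ma (dl F h) = ma (dl F (g * h)) := by
  rw [ma_dl, ma_dl, ma_dl, MonoidAlgebra.single_mul_single, one_mul]

theorem ma_dl_one : ma (dl F (1 : Y)) = 1 := by
  rw [ma_dl]; rfl

/-- the commutation rule of the inverse unit -/
theorem unt_comm {f : Y → F} (hf : IsCl f) {γ : MulAut Y} {w wi : Y → F} (hU : Unt f γ w wi) :
    ∀ n y : Y, wi (n * y * (γ⁻¹ n)⁻¹) = wi y := by
  obtain ⟨hfw, hfwi, hun, hun', hcm⟩ := hU
  have cW : ∀ n : Y, ma w * ma (dl F n) = ma (dl F (γ⁻¹ n)) * ma w := fun n =>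
    (comm_iff w (γ⁻¹ n) n).1 (fun y => hcm n y)
  have mW : ma w * ma wi = ma f := by rw [← ma_mul, hun]
  have mW' : ma wi * ma w = ma f := by rw [← ma_mul, hun']
  have fV : ma f * ma wi = ma wi := by rw [← ma_mul, hfwi]
  have Vf : ma wi * ma f = ma wi := by rw [← cl_ma hf, fV]
  intro n y
  refine (comm_iff wi n (γ⁻¹ n)).2 ?_ y
  calc ma wi * ma (dl F (γ⁻¹ n)) = ma wi * ma f * ma (dl F (γ⁻¹ n)) := by rw [Vf]
    _ = ma wi * ma (dl F (γ⁻¹ n)) * ma f := by
        rw [mul_assoc, cl_ma hf, ← mul_assoc]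
    _ = ma wi * (ma (dl F (γ⁻¹ n)) * ma w) * ma wi := by
        rw [← mW]; simp only [mul_assoc]
    _ = (ma wi * ma w) * ma (dl F n) * ma wi := by
        rw [← cW]; simp only [mul_assoc]
    _ = ma (dl F n) * (ma f * ma wi) := by
        rw [mW', cl_ma hf, mul_assoc]
    _ = ma (dl F n) * ma wi := by rw [fV]

end unt

section unit

variable {F G : Type} [Field F] [Group G] [Finite G] {N : Subgroup G}

/-- a unit over `g` gives a unit of the block algebra -/
theorem unit_unt [hN : N.Normal] {b : N → F} (hcl : IsCl (ext0 N b)) {g : G} {u u' : G → F}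
    (hu : IsUnitOver (ext0 N b) N g u u') (hu' : mulF u' u = ext0 N b) :
    Unt b (MulAut.conjNormal g) (fun t : N => u (g * t)) (fun t : N => u' (t * g⁻¹)) := by
  obtain ⟨hL, hR, hm⟩ := hu
  set f := ext0 N b with hf
  set w : N → F := fun t => u (g * t) with hw
  set v : N → F := fun t => u' (t * g⁻¹) with hv
  have D1 : ma (dl F g) * ma (dl F g⁻¹) = 1 := by rw [ma_dl_mul, mul_inv_cancel, ma_dl_one]
  have D2 : ma (dl F g⁻¹) * ma (dl F g) = 1 := by rw [ma_dl_mul, inv_mul_cancel, ma_dl_one]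
  have hW : ma (dl F g) * ma (ext0 N w) = ma u := by
    rw [← ma_mul]
    congr 1
    funext x
    rw [dl_mulF]
    by_cases hx : g⁻¹ * x ∈ N
    · rw [ext0_of_mem _ hx]
      change u (g * (g⁻¹ * x)) = u x
      congr 1
      group
    · rw [ext0_of_not_mem _ hx, hL.supp x hx]
  have hV : ma (ext0 N v) * ma (dl F g⁻¹) = ma u' := by
    rw [← ma_mul]
    congr 1
    funext x
    rw [mulF_dl, inv_inv]
    by_cases hx : x * g ∈ N
    · rw [ext0_of_mem _ hx]
      change u' (x * g * g⁻¹) = u' x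
      congr 1
      group
    · rw [ext0_of_not_mem _ hx, hR.supp x]
      intro h
      apply hx
      have := hN.conj_mem _ h g⁻¹
      have e : g⁻¹ * (g⁻¹⁻¹ * x) * g⁻¹⁻¹ = x * g := by group
      rwa [e] at this
  have hW' : ma (ext0 N w) = ma (dl F g⁻¹) * ma u := by
    rw [← hW, ← mul_assoc, D2, one_mul]
  have hV' : ma (ext0 N v) = ma u' * ma (dl F g) := by
    rw [← hV, mul_assoc, D2, mul_one]
  have fU : ma f * ma u = ma u := by rw [← ma_mul, hL.abs]
  have fU' : ma f * ma u' = ma u' := by rw [← ma_mul, hR.abs]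
  have UU : ma u * ma u' = ma f := by rw [← ma_mul, hm]
  have UU' : ma u' * ma u = ma f := by rw [← ma_mul, hu']
  have fc := fun x : MonoidAlgebra F G => cl_ma hcl x
  refine ⟨?_, ?_, ?_, ?_, ?_⟩
  · apply ext0_inj
    apply ma_injective
    rw [ext0_mul, ma_mul, ← hf, hW', ← mul_assoc, fc, mul_assoc, fU]
  · apply ext0_inj
    apply ma_injective
    rw [ext0_mul, ma_mul, ← hf, hV', ← mul_assoc, fU']
  · apply ext0_inj
    apply ma_injective
    rw [ext0_mul, ma_mul, ← hf, hV', hW']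
    calc ma (dl F g⁻¹) * ma u * (ma u' * ma (dl F g)) =
        ma (dl F g⁻¹) * (ma u * ma u') * ma (dl F g) := by simp only [mul_assoc]
      _ = ma f * (ma (dl F g⁻¹) * ma (dl F g)) := by rw [UU, ← fc, mul_assoc]
      _ = ma f := by rw [D2, mul_one]
  · apply ext0_inj
    apply ma_injective
    rw [ext0_mul, ma_mul, ← hf, hV', hW']
    calc ma u' * ma (dl F g) * (ma (dl F g⁻¹) * ma u) =
        ma u' * (ma (dl F g) * ma (dl F g⁻¹)) * ma u := by simp only [mul_assoc]
      _ = ma f := by rw [D1, mul_one, UU']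
  · intro n y
    change u (g * (((MulAut.conjNormal g)⁻¹ n * y * n⁻¹ : N) : G)) = u (g * y)
    have h1 := hL.inv n n.2 (g * y)
    rw [← h1]
    congr 1
    rw [← map_inv, Subgroup.coe_mul, Subgroup.coe_mul, MulAut.conjNormal_apply, Subgroup.coe_inv]
    group

theorem bx_mul {A : Subgroup G} (a c : A.subgroupOf N → F) :
    bx N A (mulF a c) = mulF (bx N A a) (bx N A c) := by
  unfold bx
  rw [ext0_mul, ext0_mul]

/-- a unit of the block algebra gives a unit over `g` in the normaliser -/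
theorem unt_unit [hN : N.Normal] {A : Subgroup G} (hA : A ≤ N) {f₁ : A.subgroupOf N → F}
    (hf₁ : IsCl f₁)
    (hcl : ∀ g ∈ Subgroup.normalizer (A : Set G), ∀ x, bx N A f₁ (g * x * g⁻¹) = bx N A f₁ x)
    {g : G} (hg : g ∈ Subgroup.normalizer (A : Set G)) {w v : A.subgroupOf N → F}
    (hU : Unt f₁ (conjE hg) w v) :
    IsUnitOver (fun t : Subgroup.normalizer (A : Set G) => bx N A f₁ t)
      (A.subgroupOf (Subgroup.normalizer (A : Set G))) ⟨g, hg⟩
      (fun t : Subgroup.normalizer (A : Set G) => mulF (dl F g) (bx N A w) t)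
      (fun t : Subgroup.normalizer (A : Set G) => mulF (bx N A v) (dl F g⁻¹) t) := by
  set T := Subgroup.normalizer (A : Set G) with hT
  have hAT : A ≤ T := Subgroup.le_normalizer
  have hv' := unt_comm hf₁ hU
  obtain ⟨hfw, hfv, hun, hun', hcm⟩ := hU
  have hgc : ∀ {x : G}, x ∈ A → g⁻¹ * x * g ∈ A := by
    intro x hx
    have := (Subgroup.mem_normalizer_iff.1 (inv_mem hg) x).1 hx
    rwa [inv_inv] at this
  have hgc' : ∀ {x : G}, g⁻¹ * x * g ∈ A → x ∈ A := by
    intro x hx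
    have := (Subgroup.mem_normalizer_iff.1 hg _).1 hx
    have e : g * (g⁻¹ * x * g) * g⁻¹ = x := by group
    rwa [e] at this
  have hcoe : ∀ n : A.subgroupOf N, ((((conjE hg)⁻¹ n : A.subgroupOf N) : N) : G) =
      g⁻¹ * ((n : N) : G) * g := by
    intro n
    change ((MulAut.conjNormal g⁻¹ (n : N) : N) : G) = _
    rw [MulAut.conjNormal_apply, inv_inv]
  -- the rules in `G`
  have kW : ∀ n ∈ A, ∀ y : G, bx N A w (g⁻¹ * n * g * y * n⁻¹) = bx N A w y := by
    intro n hn y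
    by_cases hy : y ∈ A
    · have h1 : g⁻¹ * n * g * y * n⁻¹ ∈ A := A.mul_mem (A.mul_mem (hgc hn) hy) (A.inv_mem hn)
      rw [bx_mem hA _ hy, bx_mem hA _ h1]
      have h2 := hcm ⟨⟨n, hA hn⟩, Subgroup.mem_subgroupOf.2 hn⟩
        ⟨⟨y, hA hy⟩, Subgroup.mem_subgroupOf.2 hy⟩
      rw [← h2]
      congr 1
      apply Subtype.ext
      apply Subtype.ext
      change g⁻¹ * n * g * y * n⁻¹ = ((((conjE hg)⁻¹
        (⟨⟨n, hA hn⟩, Subgroup.mem_subgroupOf.2 hn⟩ : A.subgroupOf N) : A.subgroupOf N) : N) : G) *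
          y * n⁻¹
      rw [hcoe]
    · have h1 : g⁻¹ * n * g * y * n⁻¹ ∉ A := by
        intro h
        apply hy
        have h3 := A.mul_mem (A.mul_mem (A.inv_mem (hgc hn)) h) hn
        have e : (g⁻¹ * n * g)⁻¹ * (g⁻¹ * n * g * y * n⁻¹) * n = y := by group
        rwa [e] at h3
      rw [bx_not _ hy, bx_not _ h1]
  have kV : ∀ n ∈ A, ∀ y : G, bx N A v (n * y * (g⁻¹ * n * g)⁻¹) = bx N A v y := by
    intro n hn y
    by_cases hy : y ∈ A
    · have h1 : n * y * (g⁻¹ * n * g)⁻¹ ∈ A := A.mul_mem (A.mul_mem hn hy) (A.inv_mem (hgc hn))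
      rw [bx_mem hA _ hy, bx_mem hA _ h1]
      have h2 := hv' ⟨⟨n, hA hn⟩, Subgroup.mem_subgroupOf.2 hn⟩
        ⟨⟨y, hA hy⟩, Subgroup.mem_subgroupOf.2 hy⟩
      rw [← h2]
      congr 1
      apply Subtype.ext
      apply Subtype.ext
      change n * y * (g⁻¹ * n * g)⁻¹ = n * y * ((((conjE hg)⁻¹
        (⟨⟨n, hA hn⟩, Subgroup.mem_subgroupOf.2 hn⟩ : A.subgroupOf N) : A.subgroupOf N) : N) : G)⁻¹
      rw [hcoe]
    · have h1 : n * y * (g⁻¹ * n * g)⁻¹ ∉ A := by
        intro h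
        apply hy
        have h3 := A.mul_mem (A.mul_mem (A.inv_mem hn) h) (hgc hn)
        have e : n⁻¹ * (n * y * (g⁻¹ * n * g)⁻¹) * (g⁻¹ * n * g) = y := by group
        rwa [e] at h3
      rw [bx_not _ hy, bx_not _ h1]
  set B := bx N A f₁ with hB
  set W := bx N A w with hW
  set V := bx N A v with hV
  have D1 : ma (dl F g) * ma (dl F g⁻¹) = 1 := by rw [ma_dl_mul, mul_inv_cancel, ma_dl_one]
  have BW : ma B * ma W = ma W := by rw [← ma_mul, hB, hW, ← bx_mul, hfw]
  have BV : ma B * ma V = ma V := by rw [← ma_mul, hB, hV, ← bx_mul, hfv]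
  have WV : ma W * ma V = ma B := by rw [← ma_mul, hW, hV, ← bx_mul, hun]
  have BD : ma B * ma (dl F g) = ma (dl F g) * ma B := (comm_iff B g g).1 (hcl g hg)
  have hBs : ∀ t, t ∉ T → B t = 0 := fun t ht => bx_not _ (fun h => ht (hAT h))
  have hUs : ∀ t, t ∉ T → mulF (dl F g) W t = 0 := by
    intro t ht
    rw [dl_mulF]
    apply bx_not
    intro h
    apply ht
    have := T.mul_mem hg (hAT h)
    rwa [mul_inv_cancel_left] at this
  refine ⟨⟨?_, ?_, ?_⟩, ⟨?_, ?_, ?_⟩, ?_⟩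
  · intro h hh
    rw [dl_mulF]
    apply bx_not
    intro h1
    exact hh (Subgroup.mem_subgroupOf.2 h1)
  · intro n hn h
    change mulF (dl F g) W ((n : G) * h * (n : G)⁻¹) = mulF (dl F g) W (h : G)
    rw [dl_mulF, dl_mulF]
    have h1 := kW n (Subgroup.mem_subgroupOf.1 hn) (g⁻¹ * h)
    rw [← h1]
    congr 1
    group
  · rw [← H66.mulF_sub hBs]
    have e : mulF B (mulF (dl F g) W) = mulF (dl F g) W := by
      apply ma_injective
      rw [ma_mul, ma_mul, ← mul_assoc, BD, mul_assoc, BW]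
    rw [e]
  · intro h hh
    rw [mulF_dl, inv_inv]
    apply bx_not
    intro h1
    apply hh
    rw [Subgroup.mem_subgroupOf]
    change ((g : G)⁻¹)⁻¹ * h ∈ A
    rw [inv_inv]
    apply hgc'
    have e : g⁻¹ * (g * (h : G)) * g = h * g := by group
    rw [e]
    exact h1
  · intro n hn h
    change mulF V (dl F g⁻¹) ((n : G) * h * (n : G)⁻¹) = mulF V (dl F g⁻¹) (h : G)
    rw [mulF_dl, mulF_dl, inv_inv]
    have h1 := kV n (Subgroup.mem_subgroupOf.1 hn) (h * g)
    rw [← h1]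
    congr 1
    group
  · rw [← H66.mulF_sub hBs]
    have e : mulF B (mulF V (dl F g⁻¹)) = mulF V (dl F g⁻¹) := by
      apply ma_injective
      rw [ma_mul, ma_mul, ← mul_assoc, BV]
    rw [e]
  · rw [← H66.mulF_sub hUs]
    have e : mulF (mulF (dl F g) W) (mulF V (dl F g⁻¹)) = B := by
      apply ma_injective
      rw [ma_mul, ma_mul, ma_mul]
      calc ma (dl F g) * ma W * (ma V * ma (dl F g⁻¹)) =
          ma (dl F g) * (ma W * ma V) * ma (dl F g⁻¹) := by simp only [mul_assoc]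
        _ = ma B * (ma (dl F g) * ma (dl F g⁻¹)) := by rw [WV, ← BD, mul_assoc]
        _ = ma B := by rw [D1, mul_one]
    rw [e]

end unit

end Pool.Agent.PP.H6
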